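import Pool.Agent.Lib.MP_add94d_co.Barrier.Dich

/-!
# Long chains
-/

set_option autoImplicit false

open Finset

namespace Pool.TreeBar

open BT

section ramsey

variable {α : Type*} [DecidableEq α]

theorem refine_set (P : α → α → Prop) (L : Finset α) : ∀ S : Finset α,
    ∃ S' ⊆ S, S.card ≤ 2 ^ L.card * S'.card ∧ ∀ x ∈ L, (∀ z ∈ S', P x z) ∨ (∀ z ∈ S', ¬ P x z) := by
  classical
  induction L using Finset.induction_on with
  | empty => exact fun S => ⟨S, Finset.Subset.refl S, by simp, by simp⟩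
  | insert a L ha ih =>
    intro S
    have hcard : (S.filter (fun z => P a z)).card + (S.filter (fun z => ¬ P a z)).card = S.card :=
      Finset.card_filter_add_card_filter_not _
    rw [Finset.card_insert_of_notMem ha, pow_succ]
    rcases le_total (S.filter (fun z => P a z)).card (S.filter (fun z => ¬ P a z)).card with h | h
    · obtain ⟨S', h1, h2, h3⟩ := ih (S.filter (fun z => ¬ P a z))
      refine ⟨S', h1.trans (Finset.filter_subset _ _), ?_, ?_⟩
      · calc S.card ≤ 2 * (2 ^ L.card * S'.card) := by omega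
          _ = 2 ^ L.card * 2 * S'.card := by ring
      · intro x hx
        rcases Finset.mem_insert.1 hx with h4 | h4
        · right
          intro z hz
          rw [h4]
          exact (Finset.mem_filter.1 (h1 hz)).2
        · exact h3 x h4
    · obtain ⟨S', h1, h2, h3⟩ := ih (S.filter (fun z => P a z))
      refine ⟨S', h1.trans (Finset.filter_subset _ _), ?_, ?_⟩
      · calc S.card ≤ 2 * (2 ^ L.card * S'.card) := by omega
          _ = 2 ^ L.card * 2 * S'.card := by ring
      · intro x hx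
        rcases Finset.mem_insert.1 hx with h4 | h4
        · left
          intro z hz
          rw [h4]
          exact (Finset.mem_filter.1 (h1 hz)).2
        · exact h3 x h4

/-- Erdős-Rado: a large set contains a set whose triples are described by a graph -/
theorem end_hom (F : Finset α → Prop) : ∀ (k : ℕ) (L S : Finset α), Disjoint L S →
    2 ^ (k * (L.card + k)) ≤ S.card →
    (∀ a ∈ L, ∀ b ∈ L, a ≠ b → ∀ z ∈ S, ∀ z' ∈ S, F {a, b, z} → F {a, b, z'}) →
    (∀ a ∈ L, ∀ b ∈ L, ∀ c ∈ L, a ≠ b → a ≠ c → b ≠ c →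
      ∃ x ∈ ({a, b, c} : Finset α), ∃ y ∈ ({a, b, c} : Finset α), x ≠ y ∧
        ∀ z ∈ S, (F {a, b, c} ↔ F {x, y, z})) →
    ∃ T ⊆ L ∪ S, T.card = L.card + k ∧ ∃ z₀, ∀ a ∈ T, ∀ b ∈ T, ∀ c ∈ T, a ≠ b → a ≠ c → b ≠ c →
      ∃ x ∈ ({a, b, c} : Finset α), ∃ y ∈ ({a, b, c} : Finset α), x ≠ y ∧
        (F {a, b, c} ↔ F {x, y, z₀}) := by
  classical
  intro k
  induction k with
  | zero =>
    intro L S _ hS _ h2
    obtain ⟨z₀, hz⟩ := Finset.card_pos.1 (show 0 < S.card by
      have := hS
      simp only [zero_mul, pow_zero] at this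
      omega)
    refine ⟨L, Finset.subset_union_left, by simp, z₀, ?_⟩
    intro a ha b hb c hc h3 h4 h5
    obtain ⟨x, hx, y, hy, hxy, h6⟩ := h2 a ha b hb c hc h3 h4 h5
    exact ⟨x, hx, y, hy, hxy, h6 z₀ hz⟩
  | succ k ih =>
    intro L S hd hS h1 h2
    obtain ⟨w, hw⟩ := Finset.card_pos.1 (show 0 < S.card from lt_of_lt_of_le (by positivity) hS)
    have hwL : w ∉ L := fun h => (Finset.disjoint_left.1 hd h) hw
    obtain ⟨S', hS', hcard, hc⟩ := refine_set (fun x z => F {x, w, z}) L (S.erase w)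
    have hS'S : S' ⊆ S := hS'.trans (Finset.erase_subset _ _)
    have hwS' : w ∉ S' := fun h => (Finset.mem_erase.1 (hS' h)).1 rfl
    have hcl : (insert w L).card = L.card + 1 := Finset.card_insert_of_notMem hwL
    have hce := Finset.card_erase_add_one hw
    have hsz : 2 ^ (k * ((insert w L).card + k)) ≤ S'.card := by
      rw [hcl]
      by_contra hlt
      push Not at hlt
      have e1 : 2 ^ ((k + 1) * (L.card + (k + 1))) =
          2 ^ (k * (L.card + 1 + k)) * (2 ^ L.card * (2 ^ k * 2)) := by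
        rw [← pow_succ, ← pow_add, ← pow_add]
        congr 1
        ring
      rw [e1] at hS
      set B := 2 ^ (k * (L.card + 1 + k)) with hB
      have h3 : 2 ^ L.card * S'.card ≤ 2 ^ L.card * (B - 1) := Nat.mul_le_mul_left _ (by omega)
      have h4 : 1 ≤ 2 ^ L.card := Nat.one_le_two_pow
      have h5 : 1 ≤ 2 ^ k := Nat.one_le_two_pow
      have h6 : B * (2 ^ L.card * 2) ≤ B * (2 ^ L.card * (2 ^ k * 2)) := by
        apply Nat.mul_le_mul_left
        apply Nat.mul_le_mul_left
        omega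
      have hB1 : 1 ≤ B := Nat.one_le_two_pow
      have h7 : 2 ^ L.card * (B - 1) + 2 ^ L.card = 2 ^ L.card * B := by
        obtain ⟨B', hB'⟩ : ∃ B', B = B' + 1 := ⟨B - 1, by omega⟩
        rw [hB']
        simp only [Nat.add_sub_cancel]
        ring
      have h8 : B * (2 ^ L.card * 2) = 2 ^ L.card * B + 2 ^ L.card * B := by ring
      have h9 : 1 ≤ 2 ^ L.card * B := Nat.mul_pos h4 hB1
      omega
    have hdis : Disjoint (insert w L) S' := by
      rw [Finset.disjoint_left]
      intro a ha hS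
      rcases Finset.mem_insert.1 ha with h | h
      · exact hwS' (h ▸ hS)
      · exact Finset.disjoint_left.1 hd h (hS'S hS)
    have hA : ∀ a ∈ insert w L, ∀ b ∈ insert w L, a ≠ b → ∀ z ∈ S', ∀ z' ∈ S',
        F {a, b, z} → F {a, b, z'} := by
      have key : ∀ a ∈ L, ∀ z ∈ S', ∀ z' ∈ S', F {a, w, z} → F {a, w, z'} := by
        intro a ha z hz z' hz' hF
        rcases hc a ha with h | h
        · exact h z' hz'
        · exact absurd hF (h z hz)
      intro a ha b hb hab z hz z' hz' hF
      rcases Finset.mem_insert.1 ha with h | h <;> rcases Finset.mem_insert.1 hb with h' | h'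
      · exact absurd (h.trans h'.symm) hab
      · subst h
        rw [Finset.insert_comm] at hF ⊢
        exact key b h' z hz z' hz' hF
      · subst h'
        exact key a h z hz z' hz' hF
      · exact h1 a h b h' hab z (hS'S hz) z' (hS'S hz') hF
    have hB : ∀ a ∈ insert w L, ∀ b ∈ insert w L, ∀ c ∈ insert w L, a ≠ b → a ≠ c → b ≠ c →
        ∃ x ∈ ({a, b, c} : Finset α), ∃ y ∈ ({a, b, c} : Finset α), x ≠ y ∧
          ∀ z ∈ S', (F {a, b, c} ↔ F {x, y, z}) := by
      have key : ∀ a ∈ L, ∀ b ∈ L, a ≠ b → ∀ z ∈ S', (F {a, b, w} ↔ F {a, b, z}) := by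
        intro a ha b hb hab z hz
        exact ⟨h1 a ha b hb hab w hw z (hS'S hz), h1 a ha b hb hab z (hS'S hz) w hw⟩
      intro a ha b hb c hc' hab hac hbc
      rcases Finset.mem_insert.1 ha with h | h
      · subst h
        have hb' : b ∈ L := (Finset.mem_insert.1 hb).resolve_left (Ne.symm hab)
        have hc'' : c ∈ L := (Finset.mem_insert.1 hc').resolve_left (Ne.symm hac)
        refine ⟨b, by simp, c, by simp, hbc, fun z hz => ?_⟩
        have e1 : ({a, b, c} : Finset α) = {b, c, a} := by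
          ext t
          simp only [Finset.mem_insert, Finset.mem_singleton]
          tauto
        rw [e1]
        exact key b hb' c hc'' hbc z hz
      rcases Finset.mem_insert.1 hb with h' | h'
      · subst h'
        have hc'' : c ∈ L := (Finset.mem_insert.1 hc').resolve_left (Ne.symm hbc)
        refine ⟨a, by simp, c, by simp, hac, fun z hz => ?_⟩
        have e1 : ({a, b, c} : Finset α) = {a, c, b} := by
          ext t
          simp only [Finset.mem_insert, Finset.mem_singleton]
          tauto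
        rw [e1]
        exact key a h c hc'' hac z hz
      rcases Finset.mem_insert.1 hc' with h'' | h''
      · subst h''
        refine ⟨a, by simp, b, by simp, hab, fun z hz => ?_⟩
        exact key a h b h' hab z hz
      · obtain ⟨x, hx, y, hy, hxy, h6⟩ := h2 a h b h' c h'' hab hac hbc
        exact ⟨x, hx, y, hy, hxy, fun z hz => h6 z (hS'S hz)⟩
    obtain ⟨T, hT, hTc, z₀, hz⟩ := ih (insert w L) S' hdis hsz hA hB
    refine ⟨T, hT.trans ?_, by rw [hTc, hcl]; ring, z₀, hz⟩
    intro a ha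
    rcases Finset.mem_union.1 ha with h | h
    · rcases Finset.mem_insert.1 h with h' | h'
      · rw [h']
        exact Finset.mem_union_right _ hw
      · exact Finset.mem_union_left _ h'
    · exact Finset.mem_union_right _ (hS'S h)

theorem greedy_indep (g : α → α → Prop) (hg : ∀ x y, g x y → g y x) (d : ℕ) : ∀ (k : ℕ) (S : Finset α),
    (∀ v ∈ S, ∀ N ⊆ S, (∀ u ∈ N, u ≠ v ∧ g v u) → N.card < d) → k * d ≤ S.card →
    k = 0 ∨ 0 < S.card →
    ∃ Z ⊆ S, Z.card = k ∧ ∀ x ∈ Z, ∀ y ∈ Z, x ≠ y → ¬ g x y := by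
  classical
  intro k
  induction k with
  | zero => exact fun S _ _ _ => ⟨∅, Finset.empty_subset _, rfl, by simp⟩
  | succ k ih =>
    intro S hdeg hS hpos
    obtain ⟨v, hv⟩ := Finset.card_pos.1 (hpos.resolve_left (by omega))
    set N := S.filter (fun u => u ≠ v ∧ g v u) with hN
    set S' := S.filter (fun u => u ≠ v ∧ ¬ g v u) with hS'
    have h1 : N.card < d := hdeg v hv N (Finset.filter_subset _ _) (fun u hu => (Finset.mem_filter.1 hu).2)
    have h2 : S ⊆ insert v (N ∪ S') := by
      intro u hu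
      by_cases h : u = v
      · rw [h]
        exact Finset.mem_insert_self _ _
      · apply Finset.mem_insert_of_mem
        by_cases h' : g v u
        · exact Finset.mem_union_left _ (Finset.mem_filter.2 ⟨hu, h, h'⟩)
        · exact Finset.mem_union_right _ (Finset.mem_filter.2 ⟨hu, h, h'⟩)
    have h3 := Finset.card_le_card h2
    have h4 := Finset.card_insert_le v (N ∪ S')
    have h5 := Finset.card_union_le N S'
    have h6 : k * d ≤ S'.card := by
      have : (k + 1) * d = k * d + d := by ring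
      omega
    have h7 : k = 0 ∨ 0 < S'.card := by
      rcases Nat.eq_zero_or_pos k with h | h
      · exact Or.inl h
      · right
        have : 0 < k * d := Nat.mul_pos h (by omega)
        omega
    obtain ⟨Z, hZ, hZc, hZi⟩ := ih S' (fun u hu M hM hM' => hdeg u (Finset.filter_subset _ _ hu) M
      (hM.trans (Finset.filter_subset _ _)) hM') h6 h7
    have hvZ : v ∉ Z := fun h => ((Finset.mem_filter.1 (hZ h)).2.1) rfl
    refine ⟨insert v Z, ?_, by rw [Finset.card_insert_of_notMem hvZ, hZc], ?_⟩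
    · intro u hu
      rcases Finset.mem_insert.1 hu with h | h
      · rw [h]
        exact hv
      · exact Finset.filter_subset _ _ (hZ h)
    · intro x hx y hy hxy
      rcases Finset.mem_insert.1 hx with h | h <;> rcases Finset.mem_insert.1 hy with h' | h'
      · exact absurd (h.trans h'.symm) hxy
      · rw [h]
        exact (Finset.mem_filter.1 (hZ h')).2.2
      · rw [h']
        exact fun hh => (Finset.mem_filter.1 (hZ h)).2.2 (hg _ _ hh)
      · exact hZi x h y h' hxy

/-- Ramsey's theorem for graphs -/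
theorem graph_ramsey (g : α → α → Prop) (hg : ∀ x y, g x y → g y x) (q : ℕ) (hq : 0 < q) :
    ∀ (s : ℕ) (S : Finset α), q ^ s ≤ S.card →
      (∃ Z ⊆ S, Z.card = s ∧ ∀ x ∈ Z, ∀ y ∈ Z, x ≠ y → g x y) ∨
      (∃ Z ⊆ S, Z.card = q ∧ ∀ x ∈ Z, ∀ y ∈ Z, x ≠ y → ¬ g x y) := by
  classical
  intro s
  induction s with
  | zero => exact fun S _ => Or.inl ⟨∅, Finset.empty_subset _, rfl, by simp⟩
  | succ s ih =>
    intro S hS
    by_cases h : ∃ v ∈ S, ∃ N ⊆ S, (∀ u ∈ N, u ≠ v ∧ g v u) ∧ q ^ s ≤ N.card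
    · obtain ⟨v, hv, N, hN, hN1, hN2⟩ := h
      rcases ih N hN2 with ⟨Z, hZ, hZc, hZg⟩ | ⟨Z, hZ, hZc, hZg⟩
      · left
        have hvZ : v ∉ Z := fun h => (hN1 v (hZ h)).1 rfl
        refine ⟨insert v Z, ?_, by rw [Finset.card_insert_of_notMem hvZ, hZc], ?_⟩
        · intro u hu
          rcases Finset.mem_insert.1 hu with h | h
          · rw [h]
            exact hv
          · exact hN (hZ h)
        · intro x hx y hy hxy
          rcases Finset.mem_insert.1 hx with h | h <;> rcases Finset.mem_insert.1 hy with h' | h'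
          · exact absurd (h.trans h'.symm) hxy
          · rw [h]
            exact (hN1 y (hZ h')).2
          · rw [h']
            exact hg _ _ (hN1 x (hZ h)).2
          · exact hZg x h y h' hxy
      · exact Or.inr ⟨Z, hZ.trans hN, hZc, hZg⟩
    · right
      push Not at h
      apply greedy_indep g hg (q ^ s) q S (fun v hv N hN hN1 => h v hv N hN hN1)
      · rw [← pow_succ']
        exact hS
      · right
        exact lt_of_lt_of_le (by positivity) hS

/-- Ramsey's theorem for triples -/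
theorem triple_ramsey (F : Finset α → Prop) (s q : ℕ) (hq : 0 < q) (E : Finset α)
    (hE : 2 ^ (q ^ s * q ^ s) ≤ E.card) :
    (∃ Z ⊆ E, Z.card = s ∧ ∀ a ∈ Z, ∀ b ∈ Z, ∀ c ∈ Z, a ≠ b → a ≠ c → b ≠ c → F {a, b, c}) ∨
    (∃ Z ⊆ E, Z.card = q ∧ ∀ a ∈ Z, ∀ b ∈ Z, ∀ c ∈ Z, a ≠ b → a ≠ c → b ≠ c → ¬ F {a, b, c}) := by
  classical
  obtain ⟨T, hT, hTc, z₀, hz⟩ := end_hom F (q ^ s) ∅ E (Finset.disjoint_empty_left _)
    (by simpa using hE) (by simp) (by simp)
  rw [Finset.empty_union] at hT
  rw [Finset.card_empty, zero_add] at hTc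
  rcases graph_ramsey (fun x y => F {x, y, z₀}) (fun x y h => by rwa [Finset.insert_comm]) q hq s T hTc.ge with
    ⟨Z, hZ, hZc, hZg⟩ | ⟨Z, hZ, hZc, hZg⟩
  · left
    refine ⟨Z, hZ.trans hT, hZc, fun a ha b hb c hc h1 h2 h3 => ?_⟩
    obtain ⟨x, hx, y, hy, hxy, h4⟩ := hz a (hZ ha) b (hZ hb) c (hZ hc) h1 h2 h3
    have key : ∀ t ∈ ({a, b, c} : Finset α), t ∈ Z := by
      intro t ht
      simp only [Finset.mem_insert, Finset.mem_singleton] at ht
      rcases ht with h | h | h <;> rw [h] <;> assumption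
    exact h4.2 (hZg x (key x hx) y (key y hy) hxy)
  · right
    refine ⟨Z, hZ.trans hT, hZc, fun a ha b hb c hc h1 h2 h3 hF => ?_⟩
    obtain ⟨x, hx, y, hy, hxy, h4⟩ := hz a (hZ ha) b (hZ hb) c (hZ hc) h1 h2 h3
    have key : ∀ t ∈ ({a, b, c} : Finset α), t ∈ Z := by
      intro t ht
      simp only [Finset.mem_insert, Finset.mem_singleton] at ht
      rcases ht with h | h | h <;> rw [h] <;> assumption
    exact hZg x (key x hx) y (key y hy) hxy (h4.1 hF)

end ramsey

/-- a long chain of branching words gives many vertices without edges -/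
theorem chain_case {G : Finset W} {s q : ℕ} {H : Set (Finset W)} (hH : TreeDet G H) (hs : 4 ≤ s) (hq : 0 < q)
    (hfree : ¬ ∃ Q : Finset W, (∀ v ∈ Q, v ∈ G) ∧ Q.card = s + 1 ∧ IsClique H Q)
    {e : Bool} {E : Finset W} (hE : Chn e E) (hNd : ∀ x ∈ E, Nd G x)
    (hcard : 2 ^ (q ^ s * q ^ s) ≤ E.card) :
    ∃ S : Finset W, (∀ v ∈ S, v ∈ G) ∧ S.card = q + 1 ∧ ¬ ∃ Q ⊆ S, Q.card = s ∧ IsClique H Q := by
  classical
  rcases triple_ramsey (FF G H) s q hq E hcard with ⟨Z, hZ, hZc, hZF⟩ | ⟨Z, hZ, hZc, hZF⟩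
  · exfalso
    refine noClique hH (by omega) hfree e Z hZc (fun x hx => hNd x (hZ hx)) (hE.mono hZ) ?_
    intro x hx y hy z hz h1 h2
    have h3 := h1.length
    have h4 := h2.length
    refine hZF x hx y hy z hz ?_ ?_ ?_
    · intro h
      rw [h] at h3
      exact lt_irrefl _ h3
    · intro h
      rw [h] at h3
      exact absurd (h4.trans h3) (lt_irrefl _)
    · intro h
      rw [h] at h4
      exact lt_irrefl _ h4
  · have hZc' : Chn e Z := hE.mono hZ
    obtain ⟨x₀, hx₀, hlow⟩ := exists_low (Finset.card_pos.1 (by omega : 0 < Z.card)) hZc'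
    set v₀ := pk G (x₀ ++ [e]) with hv₀
    have hv : ∀ x ∈ Z, (x ++ [e]) <+: v₀ := by
      intro x hx
      by_cases h : x = x₀
      · rw [h]
        exact prefix_pk _ _
      · exact (hlow x hx h).trans_pre ((List.prefix_append x₀ [e]).trans (prefix_pk _ _))
    have hlenQ : ∀ v ∈ insert v₀ (Z.image (vx G e)), v ∈ G := by
      intro v hv'
      rcases Finset.mem_insert.1 hv' with h | h
      · rw [h]
        exact pk_mem (hNd x₀ (hZ hx₀) e)
      · obtain ⟨x, hx, rfl⟩ := Finset.mem_image.1 h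
        exact vx_mem (hNd x (hZ hx))
    refine ⟨insert v₀ (Z.image (vx G e)), hlenQ, ?_, ?_⟩
    · rw [Finset.card_insert_of_notMem (notMem_image_vx hv), Finset.card_image_of_injOn (vx_inj hZc'), hZc]
    · rintro ⟨Q, hQ, hQs, hQc⟩
      obtain ⟨V, hV, hV4⟩ := Finset.exists_subset_card_eq (show 4 ≤ Q.card by omega)
      have h1 := hQc V hV hV4
      obtain ⟨w, Z', hZ'Z, hVZ, hw, hcard'⟩ := sub_comb hZc' hv (hV.trans hQ) (Finset.card_pos.1 (by omega))
      rw [mem_iff hH (fun v hv' => hlenQ v (hQ (hV hv'))) hV4] at h1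
      have hb : branch V = Z' := by
        rw [hVZ]
        exact branch_chain G e w _ Z' rfl (hZc'.mono hZ'Z) hw
      rw [hb] at h1
      obtain ⟨x, hx, y, hy, z, hz, h2, h3, h4⟩ := exists_sorted (hZc'.mono hZ'Z) (by omega : Z'.card = 3)
      rw [h4] at h1
      have h5 := h2.length
      have h6 := h3.length
      refine hZF x (hZ'Z hx) y (hZ'Z hy) z (hZ'Z hz) ?_ ?_ ?_ h1
      · intro h
        rw [h] at h5
        exact lt_irrefl _ h5
      · intro h
        rw [h] at h5
        exact absurd (h6.trans h5) (lt_irrefl _)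
      · intro h
        rw [h] at h6
        exact lt_irrefl _ h6

end Pool.TreeBar
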