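import Pool.Agent.Lib.MP_add94d_co.Barrier.Leaves

/-!
# The combinatorial core
-/

set_option autoImplicit false

open Finset

namespace Pool.TreeBar

open BT

/-- the combinatorial core, for a tall tree -/
theorem core {G : Finset W} {s j J : ℕ} {H : Set (Finset W)} (hH : TreeDet G H) (hs : 5 ≤ s) (hG : G.Nonempty)
    (hfree : ¬ ∃ Q : Finset W, (∀ v ∈ Q, v ∈ G) ∧ Q.card = s + 1 ∧ IsClique H Q)
    (hJ : J = gg j (2 * (s - 2))) (T₀ : BT) (hT0F : Full (Gam (s - 2) (2 ^ j) J ^ J) T₀)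
    (hT0U : Under [] T₀) (hlen0 : ∀ x ∈ T₀.nodes, Nd G x) :
    ∃ S : Finset W, (∀ v ∈ S, v ∈ G) ∧ S.card = 2 ^ j ∧
      ¬ ∃ Q ⊆ S, Q.card = s ∧ IsClique H Q := by
  classical
  by_contra hno
  push Not at hno
  have hL : ∀ S : Finset W, (∀ v ∈ S, v ∈ G) → S.card = 2 ^ j →
      ∃ Q ⊆ S, Q.card = s ∧ IsClique H Q := hno
  have hdom := domination hH (by omega) hfree hL
  obtain ⟨T₁, h1, h2, h3, h4, h5, -, -⟩ := phase1 (fun a b c => FF G H {a, b, c}) (Nd G) J (s - 2)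
    (2 ^ j) hdom J T₀ [] ∅ ∅ hT0F hT0U hlen0 (by simp) (by simp)
  have hlen1 : ∀ x ∈ T₁.nodes, Nd G x := fun x hx => hlen0 x (h3 x hx)
  have hInv : Inv2 (fun a b c => FF G H {a, b, c}) (Nd G) T₁ (fun _ => ∅) := by
    refine ⟨⟨hlen1, by simp⟩, by simp, by simp, by simp, by simp, fun e => ?_⟩
    have : ∀ T : BT, All (fun b l r => ∀ a ∈ (ch e l r).nodes, ∀ c ∈ (∅ : Finset W),
        FF G H {a, b, c}) T := by
      intro T
      induction T with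
      | leaf => trivial
      | node b l r ihl ihr => exact ⟨by simp, ihl, ihr⟩
    exact this T₁
  obtain ⟨T₂, h6, h7, h8⟩ := phase2 (fun a b c => FF G H {a, b, c}) (Nd G) s (by omega)
    (noClique hH (by omega) hfree) j (2 * (s - 2)) T₁ [] (fun _ => ∅) (fun _ => s - 2) hInv h2 h5 h4
    (by simp) (by omega) (by rw [← hJ]; exact h1)
  have hlen2 : ∀ v ∈ leavesOf G [] T₂, v ∈ G :=
    leaves_mem G T₂ [] (hG.imp fun v hv => ⟨hv, List.nil_prefix⟩) fun x hx => hlen1 x (h6.nodes x hx)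
  obtain ⟨Q, hQ, hQs, hQc⟩ := hL (leavesOf G [] T₂) hlen2
    (leaves_card G T₂ j [] h7 (h6.under _ h2))
  obtain ⟨V, hV, hV5⟩ := Finset.exists_subset_card_eq (show 5 ≤ Q.card by omega)
  obtain ⟨A, hA, hA4, hAF⟩ := five [] (h6.under _ h2) h8 V (hV.trans hQ) hV5
  apply hAF
  rw [← mem_iff hH (fun v hv => hlen2 v (hQ (hV (hA hv)))) hA4]
  exact hQc A (hA.trans hV) hA4

theorem gg_bound (j : ℕ) : ∀ n, gg j n + 2 ≤ 4 * (j + 2) ^ n
  | 0 => by simp [gg]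
  | n + 1 => by
    have ih := gg_bound j n
    have e1 : gg j (n + 1) = j * (gg j n + 1) + 2 := rfl
    rw [e1, pow_succ]
    have h2 := Nat.mul_le_mul_right (j + 2) ih
    nlinarith [two_le_gg j n]

theorem gg_ge (j n : ℕ) : j ≤ gg j (n + 1) := by
  have e1 : gg j (n + 1) = j * (gg j n + 1) + 2 := rfl
  rw [e1]
  nlinarith

theorem Gam_le {t j J : ℕ} (h : j ≤ J) (hJ : 1 ≤ J) :
    Gam t (2 ^ j) J ^ J ≤ 2 ^ ((t + 3) * (J + 1) ^ 2) := by
  have hA : 2 ≤ 2 ^ J := by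
    calc 2 = 2 ^ 1 := by norm_num
      _ ≤ 2 ^ J := Nat.pow_le_pow_right (by norm_num) hJ
  have hL : 2 ^ j ≤ 2 ^ J := Nat.pow_le_pow_right (by norm_num) h
  have hB : 2 ^ (J + 1) = 2 * 2 ^ J := by rw [pow_succ]; ring
  have h1 : Gam t (2 ^ j) J ≤ (2 ^ (J + 1)) ^ (t + 3) := by
    unfold Gam
    have h2 : (2 ^ j + 2) ^ t ≤ (2 ^ (J + 1)) ^ t := Nat.pow_le_pow_left (by omega) t
    have h3 : 2 ^ j * (2 ^ j * (2 ^ j + 2) ^ t * 2 ^ J + 1) ≤
        2 ^ J * (2 ^ J * (2 ^ (J + 1)) ^ t * 2 ^ J + 1) := by gcongr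
    have h4 : 1 ≤ (2 ^ (J + 1)) ^ t := Nat.one_le_pow _ _ (by positivity)
    refine (Nat.add_le_add_right h3 _).trans ?_
    have e1 : (2 ^ (J + 1)) ^ (t + 3) = (2 ^ (J + 1)) ^ t * (8 * (2 ^ J) ^ 3) := by
      rw [pow_add (2 ^ (J + 1)) t 3]
      congr 1
      rw [hB]
      ring
    rw [e1]
    generalize (2 ^ (J + 1)) ^ t = B at *
    generalize 2 ^ J = A at *
    have h5 : A ≤ A ^ 3 * B := by
      calc A = A * 1 := (mul_one A).symm
        _ ≤ A * (A ^ 2 * B) := Nat.mul_le_mul_left _ (Nat.succ_le_of_lt (by positivity))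
        _ = A ^ 3 * B := by ring
    have h6 : B ≤ A ^ 3 * B := Nat.le_mul_of_pos_left B (by positivity)
    calc A * (A * B * A + 1) + B = A ^ 3 * B + A + B := by ring
      _ ≤ A ^ 3 * B + A ^ 3 * B + A ^ 3 * B := by omega
      _ ≤ B * (8 * A ^ 3) := by nlinarith
  calc Gam t (2 ^ j) J ^ J ≤ ((2 ^ (J + 1)) ^ (t + 3)) ^ J := Nat.pow_le_pow_left h1 J
    _ = 2 ^ ((J + 1) * (t + 3) * J) := by rw [← pow_mul, ← pow_mul, mul_assoc]
    _ ≤ 2 ^ ((t + 3) * (J + 1) ^ 2) := by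
      apply Nat.pow_le_pow_right (by norm_num)
      nlinarith

/-- the height that suffices -/
theorem height_le {s j J : ℕ} (hs : 5 ≤ s) (hJ : J = gg j (2 * (s - 2))) :
    Gam (s - 2) (2 ^ j) J ^ J ≤ 2 ^ (16 * (s + 1) * (j + 2) ^ (4 * (s - 2))) := by
  obtain ⟨n, hn⟩ : ∃ n, 2 * (s - 2) = n + 1 := ⟨2 * (s - 2) - 1, by omega⟩
  have h1 : j ≤ J := by
    rw [hJ, hn]
    exact gg_ge j n
  have h2 : 1 ≤ J := by
    have := two_le_gg j (2 * (s - 2))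
    omega
  refine (Gam_le h1 h2).trans (Nat.pow_le_pow_right (by norm_num) ?_)
  have h3 : J + 1 ≤ 4 * (j + 2) ^ (2 * (s - 2)) := by
    have := gg_bound j (2 * (s - 2))
    omega
  have e1 : s - 2 + 3 = s + 1 := by omega
  have e2 : 4 * (s - 2) = 2 * (s - 2) * 2 := by ring
  rw [e1, e2, pow_mul]
  calc (s + 1) * (J + 1) ^ 2 ≤ (s + 1) * (4 * (j + 2) ^ (2 * (s - 2))) ^ 2 := by gcongr
    _ = 16 * (s + 1) * ((j + 2) ^ (2 * (s - 2))) ^ 2 := by ring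

end Pool.TreeBar
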