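import Mathlib

/-!
# Definitions: branching words and tree-determined `4`-graphs
-/

set_option autoImplicit false

namespace Pool.TreeBar

/-- binary words -/
abbrev W := List Bool

/-- the longest common prefix -/
def lcp : W → W → W
  | a :: u, b :: v => if a = b then a :: lcp u v else []
  | _, _ => []

/-- the branching words of a set of vertices -/
def branch (V : Finset W) : Finset W := V.offDiag.image (fun e => lcp e.1 e.2)

/-- all `4`-subsets of `Q` are edges -/
def IsClique (H : Set (Finset W)) (Q : Finset W) : Prop := ∀ V ⊆ Q, V.card = 4 → V ∈ H

end Pool.TreeBar
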