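import Pool.Agent.Lib.MP_add94d_co.Barrier.Core

/-!
# The tree of a set of words; full subtrees or long chains
-/

set_option autoImplicit false

open Finset

namespace Pool.TreeBar

open BT

/-- some vertex lies below `p` -/
def Hs (G : Finset W) (p : W) : Prop := ∃ v ∈ G, p <+: v

open Classical in
/-- the tree of the branching words below `p` -/
noncomputable def bt (G : Finset W) : ℕ → W → BT
  | 0, _ => BT.leaf
  | k + 1, p =>
    if Hs G (p ++ [false]) then
      if Hs G (p ++ [true]) then BT.node p (bt G k (p ++ [false])) (bt G k (p ++ [true]))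
      else bt G k (p ++ [false])
    else bt G k (p ++ [true])

theorem bt_under (G : Finset W) : ∀ (k : ℕ) (p : W), Under p (bt G k p)
  | 0, _ => trivial
  | k + 1, p => by
    unfold bt
    split_ifs
    · exact ⟨List.prefix_refl p, bt_under G k _, bt_under G k _⟩
    · exact (bt_under G k _).mono (List.prefix_append p [false])
    · exact (bt_under G k _).mono (List.prefix_append p [true])

theorem bt_nd (G : Finset W) : ∀ (k : ℕ) (p : W), ∀ x ∈ (bt G k p).nodes, Nd G x
  | 0, _ => by simp [bt, BT.nodes]
  | k + 1, p => by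
    intro x hx
    unfold bt at hx
    split_ifs at hx with h1 h2
    · simp only [BT.nodes, List.mem_cons, List.mem_append] at hx
      rcases hx with h | h | h
      · rw [h]
        intro e
        cases e
        · exact h1
        · exact h2
      · exact bt_nd G k _ x h
      · exact bt_nd G k _ x h
    · exact bt_nd G k _ x hx
    · exact bt_nd G k _ x hx

open Classical in
/-- the vertices below `p` -/
noncomputable def bel (G : Finset W) (p : W) : Finset W := G.filter fun v => p <+: v

theorem bel_sub {G : Finset W} {N : ℕ} (hN : ∀ v ∈ G, v.length = N) {p : W} (hp : p.length < N) :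
    bel G p ⊆ bel G (p ++ [false]) ∪ bel G (p ++ [true]) := by
  classical
  intro v hv
  unfold bel at hv ⊢
  rw [Finset.mem_filter] at hv
  obtain ⟨hvG, t, rfl⟩ := hv
  have hl := hN _ hvG
  cases t with
  | nil =>
    simp only [List.append_nil] at hl
    omega
  | cons e t =>
    cases e
    · apply Finset.mem_union_left
      rw [Finset.mem_filter]
      exact ⟨hvG, t, by simp⟩
    · apply Finset.mem_union_right
      rw [Finset.mem_filter]
      exact ⟨hvG, t, by simp⟩

theorem bel_empty {G : Finset W} {p : W} (h : ¬ Hs G p) : bel G p = ∅ := by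
  classical
  unfold bel
  rw [Finset.filter_eq_empty_iff]
  intro v hv hp
  exact h ⟨v, hv, hp⟩

theorem bt_card {G : Finset W} {N : ℕ} (hN : ∀ v ∈ G, v.length = N) : ∀ (k : ℕ) (p : W), p.length + k = N →
    (bel G p).card ≤ (bt G k p).nodes.length + 1
  | 0, p => by
    intro hp
    have : bel G p ⊆ {p} := by
      intro v hv
      unfold bel at hv
      rw [Finset.mem_filter] at hv
      have h1 := hN v hv.1
      rw [Finset.mem_singleton]
      exact (hv.2.eq_of_length (by omega)).symm
    have h2 := Finset.card_le_card this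
    rw [Finset.card_singleton] at h2
    omega
  | k + 1, p => by
    intro hp
    have h1 := Finset.card_le_card (bel_sub hN (p := p) (by omega))
    have h2 := Finset.card_union_le (bel G (p ++ [false])) (bel G (p ++ [true]))
    have h3 := bt_card hN k (p ++ [false]) (by simp; omega)
    have h4 := bt_card hN k (p ++ [true]) (by simp; omega)
    unfold bt
    split_ifs with h5 h6
    · simp only [BT.nodes, List.length_cons, List.length_append]
      omega
    · have h7 : (bel G (p ++ [true])).card = 0 := by rw [bel_empty h6, Finset.card_empty]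
      omega
    · have h7 : (bel G (p ++ [false])).card = 0 := by rw [bel_empty h5, Finset.card_empty]
      omega

/-- the largest number of nodes of a chain -/
def cn (e : Bool) : BT → ℕ
  | BT.leaf => 0
  | BT.node _ l r => max (cn e l + (bif e then 0 else 1)) (cn e r + (bif e then 1 else 0))

/-- the height of the largest complete subtree -/
def ht : BT → ℕ
  | BT.leaf => 0
  | BT.node _ l r => max (max (ht l) (ht r)) (min (ht l) (ht r) + 1)

theorem leaves_step (a₀ b₀ h : ℕ) (K : ℕ) (hK : 1 ≤ K)
    (hlow : ∀ T : BT, ht T ≤ h → cn false T ≤ a₀ → cn true T ≤ b₀ → T.nodes.length + 1 ≤ K) (T : BT) :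
    ∀ a b : ℕ, a ≤ a₀ → b ≤ b₀ → ht T ≤ h + 1 → cn false T ≤ a → cn true T ≤ b →
      T.nodes.length + 1 ≤ (a + b + 1) * K := by
  induction T with
  | leaf =>
    intro a b _ _ _ _ _
    simp only [BT.nodes, List.length_nil, zero_add]
    exact Nat.mul_pos (by omega) hK
  | node x l r ihl ihr =>
    intro a b ha hb hh h1 h2
    simp only [cn, cond_false, cond_true, add_zero] at h1 h2
    simp only [ht] at hh
    simp only [BT.nodes, List.length_cons, List.length_append]
    obtain ⟨a', rfl⟩ : ∃ a', a = a' + 1 := ⟨a - 1, by omega⟩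
    obtain ⟨b', rfl⟩ : ∃ b', b = b' + 1 := ⟨b - 1, by omega⟩
    have key : ∀ m : ℕ, (m + 1) * K = m * K + K := fun m => by ring
    rcases Nat.lt_or_ge h (ht l) with h3 | h3
    · have h4 : ht r ≤ h := by omega
      have h5 := hlow r h4 (by omega) (by omega)
      have h6 := ihl a' (b' + 1) (by omega) (by omega) (by omega) (by omega) (by omega)
      have h7 : (a' + 1 + (b' + 1) + 1) * K = (a' + (b' + 1) + 1) * K + K := by ring
      omega
    · have h5 := hlow l h3 (by omega) (by omega)
      have h6 := ihr (a' + 1) b' (by omega) (by omega) (by omega) (by omega) (by omega)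
      have h7 : (a' + 1 + (b' + 1) + 1) * K = (a' + 1 + b' + 1) * K + K := by ring
      omega

/-- a tree without large complete subtrees and without long chains is small -/
theorem leaves_le (a b : ℕ) : ∀ (h : ℕ) (T : BT), ht T ≤ h → cn false T ≤ a → cn true T ≤ b →
    T.nodes.length + 1 ≤ (a + b + 1) ^ h := by
  intro h
  induction h with
  | zero =>
    intro T h1 _ _
    cases T with
    | leaf => simp [BT.nodes]
    | node x l r =>
      simp only [ht] at h1
      omega
  | succ h ih =>
    intro T h1 h2 h3
    have := leaves_step a b h ((a + b + 1) ^ h) (Nat.one_le_pow _ _ (by omega)) ih T a b le_rfl le_rfl h1 h2 h3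
    rwa [← pow_succ'] at this

theorem full_of_ht {T : BT} : ∀ h : ℕ, h ≤ ht T → ∃ T', Sub T' T ∧ Full h T' := by
  induction T with
  | leaf =>
    intro h hh
    simp only [ht] at hh
    have : h = 0 := by omega
    subst this
    exact ⟨BT.leaf, Sub.leaf _, trivial⟩
  | node x l r ihl ihr =>
    intro h hh
    rcases Nat.eq_zero_or_pos h with h0 | h0
    · subst h0
      exact ⟨BT.leaf, Sub.leaf _, trivial⟩
    simp only [ht] at hh
    rcases Nat.lt_or_ge (ht l) h with h1 | h1
    · rcases Nat.lt_or_ge (ht r) h with h2 | h2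
      · obtain ⟨h', rfl⟩ : ∃ h', h = h' + 1 := ⟨h - 1, by omega⟩
        obtain ⟨l', h3, h4⟩ := ihl h' (by omega)
        obtain ⟨r', h5, h6⟩ := ihr h' (by omega)
        exact ⟨BT.node x l' r', Sub.node _ _ _ _ _ h3 h5, h4, h6⟩
      · obtain ⟨r', h5, h6⟩ := ihr h h2
        exact ⟨r', Sub.right _ _ _ _ h5, h6⟩
    · obtain ⟨l', h3, h4⟩ := ihl h h1
      exact ⟨l', Sub.left _ _ _ _ h3, h4⟩

theorem chain_of_cn (e : Bool) {T : BT} : ∀ p, Under p T →
    ∃ E : Finset W, Chn e E ∧ E.card = cn e T ∧ ∀ x ∈ E, x ∈ T.nodes := by
  classical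
  induction T with
  | leaf =>
    intro p _
    exact ⟨∅, by simp [Chn], by simp [cn], by simp⟩
  | node x l r ihl ihr =>
    intro p hp
    obtain ⟨El, hl1, hl2, hl3⟩ := ihl _ hp.2.1
    obtain ⟨Er, hr1, hr2, hr3⟩ := ihr _ hp.2.2
    have key : ∀ E : Finset W, Chn e E → (∀ y ∈ E, (x ++ [e]) <+: y) →
        Chn e (insert x E) ∧ (insert x E).card = E.card + 1 := by
      intro E hE hx
      have hxE : x ∉ E := by
        intro h
        have := (hx x h).length_le
        simp only [List.length_append, List.length_cons, List.length_nil] at this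
        omega
      refine ⟨?_, Finset.card_insert_of_notMem hxE⟩
      intro c hc c' hc' hne
      rcases Finset.mem_insert.1 hc with h | h <;> rcases Finset.mem_insert.1 hc' with h' | h'
      · exact absurd (h.trans h'.symm) hne
      · left
        rw [h]
        exact hx c' h'
      · right
        rw [h']
        exact hx c h
      · exact hE c h c' h' hne
    have kl : ∀ y ∈ El, (x ++ [false]) <+: y := fun y hy => hp.2.1.mem y (hl3 y hy)
    have kr : ∀ y ∈ Er, (x ++ [true]) <+: y := fun y hy => hp.2.2.mem y (hr3 y hy)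
    have nl : ∀ y ∈ El, y ∈ (BT.node x l r).nodes := fun y hy => by simp [BT.nodes, hl3 y hy]
    have nr : ∀ y ∈ Er, y ∈ (BT.node x l r).nodes := fun y hy => by simp [BT.nodes, hr3 y hy]
    have nx : x ∈ (BT.node x l r).nodes := by simp [BT.nodes]
    cases e
    · obtain ⟨k1, k2⟩ := key El hl1 kl
      simp only [cn, cond_false, add_zero]
      rcases le_total (cn false r) (cn false l + 1) with h | h
      · refine ⟨insert x El, k1, by rw [k2, hl2, max_eq_left h], fun y hy => ?_⟩
        rcases Finset.mem_insert.1 hy with h' | h'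
        · rw [h']
          exact nx
        · exact nl y h'
      · exact ⟨Er, hr1, by rw [hr2, max_eq_right h], nr⟩
    · obtain ⟨k1, k2⟩ := key Er hr1 kr
      simp only [cn, cond_true, add_zero]
      rcases le_total (cn true l) (cn true r + 1) with h | h
      · refine ⟨insert x Er, k1, by rw [k2, hr2, max_eq_right h], fun y hy => ?_⟩
        rcases Finset.mem_insert.1 hy with h' | h'
        · rw [h']
          exact nx
        · exact nr y h'
      · exact ⟨El, hl1, by rw [hl2, max_eq_left h], nl⟩

/-- a large set of words contains a complete subtree or a long chain of branching words -/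
theorem dich {G : Finset W} {N : ℕ} (hN : ∀ v ∈ G, v.length = N) (m h : ℕ)
    (hG : (2 * m + 1) ^ h < G.card) :
    (∃ T : BT, Full (h + 1) T ∧ Under [] T ∧ ∀ x ∈ T.nodes, Nd G x) ∨
      ∃ (e : Bool) (E : Finset W), Chn e E ∧ m < E.card ∧ ∀ x ∈ E, Nd G x := by
  classical
  have h1 := bt_card hN N [] (by simp)
  have h2 : bel G [] = G := by
    unfold bel
    rw [Finset.filter_eq_self]
    exact fun v _ => List.nil_prefix
  rw [h2] at h1
  have h3 := bt_under G N []
  have h4 := bt_nd G N []
  by_cases h5 : h + 1 ≤ ht (bt G N [])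
  · obtain ⟨T', h6, h7⟩ := full_of_ht (h + 1) h5
    exact Or.inl ⟨T', h7, h6.under _ h3, fun x hx => h4 x (h6.nodes x hx)⟩
  · right
    by_cases h6 : cn false (bt G N []) ≤ m
    · by_cases h7 : cn true (bt G N []) ≤ m
      · have h8 := leaves_le m m h _ (by omega) h6 h7
        rw [← two_mul] at h8
        omega
      · obtain ⟨E, h8, h9, h10⟩ := chain_of_cn true [] h3
        exact ⟨true, E, h8, by omega, fun x hx => h4 x (h10 x hx)⟩
    · obtain ⟨E, h8, h9, h10⟩ := chain_of_cn false [] h3
      exact ⟨false, E, h8, by omega, fun x hx => h4 x (h10 x hx)⟩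

end Pool.TreeBar
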