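import Pool.Agent.Lib.MP_add94d_co.Barrier.Chain

/-!
# The computation
-/

set_option autoImplicit false

open Finset

namespace Pool.TreeBar

open BT

theorem size_le {s j : ℕ} (hs : 5 ≤ s) :
    (2 * 2 ^ ((2 ^ j) ^ s * (2 ^ j) ^ s) + 1) ^ (Gam (s - 2) (2 ^ j) (gg j (2 * (s - 2))) ^ gg j (2 * (s - 2))) ≤
      2 ^ (2 ^ (32 * (s + 1) * (j + 2) ^ (4 * (s - 2)))) := by
  have h1 := height_le hs (J := gg j (2 * (s - 2))) rfl
  set h := Gam (s - 2) (2 ^ j) (gg j (2 * (s - 2))) ^ gg j (2 * (s - 2)) with hh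
  set X := (j + 2) ^ (4 * (s - 2)) with hX
  have hX1 : j + 2 ≤ X := by
    calc j + 2 = (j + 2) ^ 1 := (pow_one _).symm
      _ ≤ X := Nat.pow_le_pow_right (by omega) (by omega)
  have e1 : (2 ^ j) ^ s * (2 ^ j) ^ s = 2 ^ (2 * j * s) := by
    rw [← pow_mul, ← pow_add]
    congr 1
    ring
  rw [e1]
  have h2 : 2 * 2 ^ (2 ^ (2 * j * s)) + 1 ≤ 2 ^ (2 ^ (2 * j * s + 2)) := by
    have h3 : 2 ^ (2 * j * s) + 2 ≤ 2 ^ (2 * j * s + 2) := by
      rw [pow_add]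
      have : 1 ≤ 2 ^ (2 * j * s) := Nat.one_le_two_pow
      omega
    have h4 : 2 * 2 ^ (2 ^ (2 * j * s)) + 1 ≤ 2 ^ (2 ^ (2 * j * s) + 2) := by
      rw [pow_add]
      have : 1 ≤ 2 ^ (2 ^ (2 * j * s)) := Nat.one_le_two_pow
      omega
    exact h4.trans (Nat.pow_le_pow_right (by norm_num) h3)
  calc (2 * 2 ^ (2 ^ (2 * j * s)) + 1) ^ h ≤ (2 ^ (2 ^ (2 * j * s + 2))) ^ h := Nat.pow_le_pow_left h2 h
    _ = 2 ^ (2 ^ (2 * j * s + 2) * h) := by rw [← pow_mul]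
    _ ≤ 2 ^ (2 ^ (32 * (s + 1) * X)) := by
      apply Nat.pow_le_pow_right (by norm_num)
      calc 2 ^ (2 * j * s + 2) * h ≤ 2 ^ (2 * j * s + 2) * 2 ^ (16 * (s + 1) * X) := Nat.mul_le_mul_left _ h1
        _ = 2 ^ (2 * j * s + 2 + 16 * (s + 1) * X) := by rw [← pow_add]
        _ ≤ 2 ^ (32 * (s + 1) * X) := by
          apply Nat.pow_le_pow_right (by norm_num)
          have h5 : 2 * j * s + 2 ≤ 16 * (s + 1) * X := by
            calc 2 * j * s + 2 ≤ 16 * (s + 1) * (j + 2) := by nlinarith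
              _ ≤ 16 * (s + 1) * X := Nat.mul_le_mul_left _ hX1
          have h6 : 32 * (s + 1) * X = 16 * (s + 1) * X + 16 * (s + 1) * X := by ring
          omega

/-- the combinatorial theorem -/
theorem main {G : Finset W} {N s j : ℕ} {H : Set (Finset W)} (hN : ∀ v ∈ G, v.length = N) (hH : TreeDet G H)
    (hs : 5 ≤ s)
    (hfree : ¬ ∃ Q : Finset W, (∀ v ∈ Q, v ∈ G) ∧ Q.card = s + 1 ∧ IsClique H Q)
    (hG : 2 ^ (2 ^ (32 * (s + 1) * (j + 2) ^ (4 * (s - 2)))) < G.card) :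
    ∃ S : Finset W, (∀ v ∈ S, v ∈ G) ∧ 2 ^ j ≤ S.card ∧ ¬ ∃ Q ⊆ S, Q.card = s ∧ IsClique H Q := by
  rcases dich hN (2 ^ ((2 ^ j) ^ s * (2 ^ j) ^ s)) _ ((size_le (j := j) hs).trans_lt hG) with
    ⟨T, hT, hU, hNd⟩ | ⟨e, E, hE, hc, hNd⟩
  · obtain ⟨T', h1, h2⟩ := hT.trim (Nat.le_succ _)
    obtain ⟨S, h3, h4, h5⟩ := core hH hs (Finset.card_pos.1 (lt_of_le_of_lt (Nat.zero_le _) hG)) hfree rfl T' h2
      (h1.under _ hU) (fun x hx => hNd x (h1.nodes x hx))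
    exact ⟨S, h3, h4.ge, h5⟩
  · obtain ⟨S, h3, h4, h5⟩ := chain_case hH (by omega) (by positivity) hfree hE hNd hc.le
    exact ⟨S, h3, by omega, h5⟩

open Filter in
theorem numeric (s : ℕ) (hs : 5 ≤ s) (c : ℝ) (hc : 0 < c) (hc1 : c * (4 * (s - 2)) < 1) :
    ∃ n₀ : ℕ, ∀ n ≥ n₀, ∃ j : ℕ, Real.exp ((Real.log (Real.log n)) ^ c) ≤ 2 ^ j ∧
      2 ^ (2 ^ (32 * (s + 1) * (j + 2) ^ (4 * (s - 2)))) < n := by
  set θ : ℝ := c * (4 * (s - 2)) with hθ
  set A : ℝ := 32 * (s + 1) * 5 ^ (4 * (s - 2)) with hA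
  have ht : Tendsto (fun n : ℕ => Real.log (Real.log n)) atTop atTop :=
    Real.tendsto_log_atTop.comp (Real.tendsto_log_atTop.comp tendsto_natCast_atTop_atTop)
  have h1 : Tendsto (fun n : ℕ => (Real.log (Real.log n)) ^ (1 - θ)) atTop atTop :=
    (tendsto_rpow_atTop (by linarith)).comp ht
  have h2 := ((h1.eventually_ge_atTop A).and (ht.eventually_ge_atTop 1)).and
    (eventually_ge_atTop 3)
  obtain ⟨n₀, hn₀⟩ := eventually_atTop.1 h2
  refine ⟨n₀, fun n hn => ?_⟩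
  obtain ⟨⟨h3, h4⟩, h5⟩ := hn₀ n hn
  set x := Real.log (Real.log n) with hx
  set y := x ^ c with hy
  have hy1 : 1 ≤ y := Real.one_le_rpow h4 hc.le
  refine ⟨⌈2 * y⌉₊, ?_, ?_⟩
  · have h6 : 2 * y ≤ (⌈2 * y⌉₊ : ℝ) := Nat.le_ceil _
    have h7 : (2 : ℝ) ^ ⌈2 * y⌉₊ = Real.exp (⌈2 * y⌉₊ * Real.log 2) := by
      rw [Real.exp_nat_mul, Real.exp_log (by norm_num)]
    rw [h7]
    apply Real.exp_le_exp.2
    have := Real.log_two_gt_d9
    nlinarith
  · have h6 : (⌈2 * y⌉₊ : ℝ) < 2 * y + 1 := Nat.ceil_lt_add_one (by linarith)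
    set j := ⌈2 * y⌉₊ with hj
    set E := 32 * (s + 1) * (j + 2) ^ (4 * (s - 2)) with hE
    have h7 : (E : ℝ) ≤ x := by
      have h8 : (E : ℝ) = 32 * (s + 1) * ((j : ℝ) + 2) ^ (4 * (s - 2)) := by
        rw [hE]
        push_cast
        ring
      have h9 : ((j : ℝ) + 2) ^ (4 * (s - 2)) ≤ (5 * y) ^ (4 * (s - 2)) :=
        pow_le_pow_left₀ (by positivity) (by linarith) _
      have h10 : y ^ (4 * (s - 2)) = x ^ θ := by
        rw [hy, ← Real.rpow_natCast, ← Real.rpow_mul (by linarith), hθ]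
        congr 1
        push_cast [Nat.cast_sub (show 2 ≤ s by omega)]
        ring
      have h11 : x = x ^ θ * x ^ (1 - θ) := by
        rw [← Real.rpow_add (by linarith)]
        simp
      have h12 : 0 ≤ x ^ θ := Real.rpow_nonneg (by linarith) _
      calc (E : ℝ) ≤ 32 * (s + 1) * (5 * y) ^ (4 * (s - 2)) := by
            rw [h8]
            gcongr
        _ = A * x ^ θ := by
            rw [mul_pow, h10, hA]
            ring
        _ ≤ x ^ (1 - θ) * x ^ θ := by gcongr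
        _ = x := by
            conv_rhs => rw [h11]
            ring
    have hl2 := Real.log_two_lt_d9
    have hl2' := Real.log_two_gt_d9
    have hn0 : (0 : ℝ) < n := by
      have : (3 : ℝ) ≤ n := by exact_mod_cast h5
      linarith
    have hln : 0 < Real.log n := Real.log_pos (by
      have : (3 : ℝ) ≤ n := by exact_mod_cast h5
      linarith)
    have h8 : ((2 ^ E : ℕ) : ℝ) < Real.log n := by
      have h9 : (2 : ℝ) ^ E = Real.exp (E * Real.log 2) := by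
        rw [Real.exp_nat_mul, Real.exp_log (by norm_num)]
      have h10 : Real.log n = Real.exp x := by
        rw [hx, Real.exp_log hln]
      push_cast
      rw [h9, h10]
      apply Real.exp_lt_exp.2
      have h11 : (0 : ℝ) ≤ E := Nat.cast_nonneg E
      nlinarith
    have h9 : ((2 ^ (2 ^ E) : ℕ) : ℝ) < (n : ℝ) := by
      have h9 : (2 : ℝ) ^ (2 ^ E) = Real.exp (((2 ^ E : ℕ) : ℝ) * Real.log 2) := by
        rw [Real.exp_nat_mul, Real.exp_log (by norm_num)]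
      have h10 : (n : ℝ) = Real.exp (Real.log n) := by
        rw [Real.exp_log hn0]
      push_cast
      push_cast at h9 h8
      rw [h9, h10]
      apply Real.exp_lt_exp.2
      have h11 : (0 : ℝ) ≤ 2 ^ E := by positivity
      nlinarith
    exact_mod_cast h9

end Pool.TreeBar
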