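import Pool.Agent.Lib.MP_add94d_co.Barrier.Phase2

/-!
# Branching words and cliques
-/

set_option autoImplicit false

open Finset

namespace Pool.TreeBar

open BT

theorem lcp_comm : ∀ u v : W, lcp u v = lcp v u
  | [], [] => rfl
  | [], _ :: _ => rfl
  | _ :: _, [] => rfl
  | a :: u, b :: v => by
    unfold lcp
    by_cases h : a = b
    · rw [if_pos h, if_pos h.symm, lcp_comm u v, h]
    · rw [if_neg h, if_neg (fun h' => h h'.symm)]

theorem lcp_append (p u v : W) : lcp (p ++ u) (p ++ v) = p ++ lcp u v := by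
  induction p with
  | nil => rfl
  | cons a p ih =>
    simp only [List.cons_append, lcp, if_true, ih]

theorem lcp_eq {q u v : W} {a b : Bool} (hab : a ≠ b) (hu : (q ++ [a]) <+: u)
    (hv : (q ++ [b]) <+: v) : lcp u v = q := by
  obtain ⟨u', rfl⟩ := hu
  obtain ⟨v', rfl⟩ := hv
  rw [List.append_assoc, List.append_assoc, lcp_append]
  simp only [List.cons_append, List.nil_append, lcp, if_neg hab, List.append_nil]

theorem side_unique {q u : W} {a b : Bool} (hu : (q ++ [a]) <+: u) (hv : (q ++ [b]) <+: u) :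
    a = b := by
  obtain ⟨u', rfl⟩ := hu
  obtain ⟨v', hv'⟩ := hv
  rw [List.append_assoc, List.append_assoc] at hv'
  have h := List.append_cancel_left hv'
  simp only [List.cons_append, List.nil_append, List.cons.injEq] at h
  exact h.1.symm

theorem mem_branch {V : Finset W} {w : W} :
    w ∈ branch V ↔ ∃ u ∈ V, ∃ v ∈ V, u ≠ v ∧ lcp u v = w := by
  unfold branch
  rw [Finset.mem_image]
  constructor
  · rintro ⟨⟨u, v⟩, he, h⟩
    rw [Finset.mem_offDiag] at he
    exact ⟨u, he.1, v, he.2.1, he.2.2, h⟩
  · rintro ⟨u, hu, v, hv, hne, h⟩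
    exact ⟨(u, v), Finset.mem_offDiag.2 ⟨hu, hv, hne⟩, h⟩

theorem branch_singleton (u : W) : branch {u} = ∅ := by
  rw [Finset.eq_empty_iff_forall_notMem]
  intro w hw
  obtain ⟨a, ha, b, hb, hne, -⟩ := mem_branch.1 hw
  rw [Finset.mem_singleton] at ha hb
  exact hne (ha.trans hb.symm)

theorem branch_pair {u v : W} (h : u ≠ v) : branch {u, v} = {lcp u v} := by
  ext w
  rw [mem_branch, Finset.mem_singleton]
  constructor
  · rintro ⟨a, ha, b, hb, hne, h'⟩
    rw [Finset.mem_insert, Finset.mem_singleton] at ha hb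
    rcases ha with ha | ha <;> rcases hb with hb | hb
    · exact absurd (ha.trans hb.symm) hne
    · rw [← h', ha, hb]
    · rw [← h', ha, hb, lcp_comm]
    · exact absurd (ha.trans hb.symm) hne
  · intro h'
    exact ⟨u, by simp, v, by simp, h, h'.symm⟩

theorem branch_union {A B : Finset W} {b : W} {e : Bool} (hA : A.Nonempty) (hB : B.Nonempty)
    (hAe : ∀ v ∈ A, (b ++ [e]) <+: v) (hBe : ∀ v ∈ B, (b ++ [!e]) <+: v) :
    branch (A ∪ B) = branch A ∪ branch B ∪ {b} := by
  have hne : e ≠ !e := by cases e <;> decide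
  ext w
  rw [mem_branch, Finset.mem_union, Finset.mem_union, Finset.mem_singleton, mem_branch, mem_branch]
  constructor
  · rintro ⟨u, hu, v, hv, huv, h⟩
    rw [Finset.mem_union] at hu hv
    rcases hu with hu | hu <;> rcases hv with hv | hv
    · exact Or.inl (Or.inl ⟨u, hu, v, hv, huv, h⟩)
    · right
      rw [← h]
      exact lcp_eq hne (hAe u hu) (hBe v hv)
    · right
      rw [← h]
      exact lcp_eq hne.symm (hBe u hu) (hAe v hv)
    · exact Or.inl (Or.inr ⟨u, hu, v, hv, huv, h⟩)
  · rintro ((⟨u, hu, v, hv, huv, h⟩ | ⟨u, hu, v, hv, huv, h⟩) | h)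
    · exact ⟨u, Finset.mem_union_left _ hu, v, Finset.mem_union_left _ hv, huv, h⟩
    · exact ⟨u, Finset.mem_union_right _ hu, v, Finset.mem_union_right _ hv, huv, h⟩
    · obtain ⟨u, hu⟩ := hA
      obtain ⟨v, hv⟩ := hB
      refine ⟨u, Finset.mem_union_left _ hu, v, Finset.mem_union_right _ hv, ?_, ?_⟩
      · intro huv
        have h1 := hAe u hu
        rw [huv] at h1
        exact hne (side_unique h1 (hBe v hv))
      · rw [h]
        exact lcp_eq hne (hAe u hu) (hBe v hv)

open Classical in
/-- a vertex of `G` below `p` (if there is one) -/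
noncomputable def pk (G : Finset W) (p : W) : W :=
  if h : ∃ v ∈ G, p <+: v then h.choose else p

theorem pk_mem {G : Finset W} {p : W} (h : ∃ v ∈ G, p <+: v) : pk G p ∈ G := by
  unfold pk
  rw [dif_pos h]
  exact h.choose_spec.1

theorem prefix_pk (G : Finset W) (p : W) : p <+: pk G p := by
  unfold pk
  split_ifs with h
  · exact h.choose_spec.2
  · exact List.prefix_refl p

/-- the branching words of the tree of all vertices -/
def Nd (G : Finset W) (x : W) : Prop := ∀ e : Bool, ∃ v ∈ G, (x ++ [e]) <+: v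

/-- a vertex that leaves the chain at `x` -/
noncomputable def vx (G : Finset W) (e : Bool) (x : W) : W := pk G (x ++ [!e])

theorem vx_mem {G : Finset W} {e : Bool} {x : W} (h : Nd G x) : vx G e x ∈ G := pk_mem (h _)

theorem vx_prefix (G : Finset W) (e : Bool) (x : W) : (x ++ [!e]) <+: vx G e x := prefix_pk _ _

theorem prefix_vx (G : Finset W) (e : Bool) (x : W) : x <+: vx G e x :=
  (List.prefix_append x [!e]).trans (vx_prefix G e x)

/-- chains -/
def Chn (e : Bool) (E : Finset W) : Prop := ∀ c ∈ E, ∀ c' ∈ E, c ≠ c' → SB e c c' ∨ SB e c' c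

theorem Chn.mono {e : Bool} {E E' : Finset W} (h : Chn e E) (hs : E' ⊆ E) : Chn e E' :=
  fun c hc c' hc' hne => h c (hs hc) c' (hs hc') hne

theorem exists_low {e : Bool} {E : Finset W} (hE : E.Nonempty) (h : Chn e E) :
    ∃ x ∈ E, ∀ y ∈ E, y ≠ x → SB e y x := by
  obtain ⟨x, hx, hmax⟩ := Finset.exists_max_image E (fun x => x.length) hE
  refine ⟨x, hx, fun y hy hne => ?_⟩
  rcases h y hy x hx hne with h1 | h1
  · exact h1
  · have := h1.length
    have := hmax y hy
    omega

theorem exists_top {e : Bool} {E : Finset W} (hE : E.Nonempty) (h : Chn e E) :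
    ∃ x ∈ E, ∀ y ∈ E, y ≠ x → SB e x y := by
  obtain ⟨x, hx, hmin⟩ := Finset.exists_min_image E (fun x => x.length) hE
  refine ⟨x, hx, fun y hy hne => ?_⟩
  rcases h y hy x hx hne with h1 | h1
  · have := h1.length
    have := hmin y hy
    omega
  · exact h1

theorem SB.trans_pre {e : Bool} {a b c : W} (h : SB e a b) (h' : b <+: c) : (a ++ [e]) <+: c :=
  List.IsPrefix.trans h h'

theorem vx_inj {G : Finset W} {e : Bool} {E : Finset W} (h : Chn e E) :
    Set.InjOn (vx G e) (E : Set W) := by
  have hne : e ≠ !e := by cases e <;> decide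
  intro x hx y hy hxy
  by_contra hc
  have key : ∀ x y : W, SB e x y → vx G e x = vx G e y → False := by
    intro x y h1 h2
    have h3 : (x ++ [e]) <+: vx G e y := h1.trans_pre (prefix_vx G e y)
    have h4 := vx_prefix G e x
    rw [h2] at h4
    exact hne (side_unique h3 h4)
  rcases h x hx y hy hc with h1 | h1
  · exact key x y h1 hxy
  · exact key y x h1 hxy.symm

theorem notMem_image_vx {G : Finset W} {e : Bool} {Z : Finset W} {w : W}
    (hw : ∀ z ∈ Z, (z ++ [e]) <+: w) : w ∉ Z.image (vx G e) := by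
  have hne : e ≠ !e := by cases e <;> decide
  intro h
  obtain ⟨z, hz, h1⟩ := Finset.mem_image.1 h
  have h2 := vx_prefix G e z
  rw [h1] at h2
  exact hne (side_unique (hw z hz) h2)

theorem branch_chain (G : Finset W) (e : Bool) (w : W) : ∀ (n : ℕ) (Z : Finset W), Z.card = n → Chn e Z →
    (∀ z ∈ Z, (z ++ [e]) <+: w) → branch (insert w (Z.image (vx G e))) = Z := by
  intro n
  induction n with
  | zero =>
    intro Z hZ _ _
    rw [Finset.card_eq_zero] at hZ
    subst hZ
    rw [Finset.image_empty, insert_empty_eq]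
    exact branch_singleton w
  | succ n ih =>
    intro Z hZ hc hw
    have hne : Z.Nonempty := Finset.card_pos.1 (by omega)
    obtain ⟨z, hz, htop⟩ := exists_top hne hc
    have hcard := Finset.card_erase_add_one hz
    have h1 := ih (Z.erase z) (by omega) (hc.mono (Finset.erase_subset z Z))
      (fun z' hz' => hw z' (Finset.mem_of_mem_erase hz'))
    have hset : insert w (Z.image (vx G e)) =
        insert w ((Z.erase z).image (vx G e)) ∪ {vx G e z} := by
      conv_lhs => rw [← Finset.insert_erase hz]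
      rw [Finset.image_insert]
      ext x
      simp only [Finset.mem_insert, Finset.mem_union, Finset.mem_singleton]
      tauto
    rw [hset, branch_union (b := z) (e := e) (Finset.insert_nonempty _ _) (Finset.singleton_nonempty _)
      ?_ ?_, h1, branch_singleton, Finset.union_empty]
    · ext x
      simp only [Finset.mem_union, Finset.mem_erase, Finset.mem_singleton]
      constructor
      · rintro (h | h)
        · exact h.2
        · rw [h]
          exact hz
      · intro h
        by_cases h' : x = z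
        · exact Or.inr h'
        · exact Or.inl ⟨h', h⟩
    · intro v hv
      rcases Finset.mem_insert.1 hv with h | h
      · rw [h]
        exact hw z hz
      · obtain ⟨z', hz', rfl⟩ := Finset.mem_image.1 h
        rw [Finset.mem_erase] at hz'
        exact (htop z' hz'.2 hz'.1).trans_pre (prefix_vx G e z')
    · intro v hv
      rw [Finset.mem_singleton] at hv
      rw [hv]
      exact vx_prefix G e z

/-- subsets of a comb -/
theorem sub_comb {G : Finset W} {e : Bool} {E : Finset W} (hE : Chn e E) {v₀ : W}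
    (hv : ∀ x ∈ E, (x ++ [e]) <+: v₀) {V : Finset W} (hV : V ⊆ insert v₀ (E.image (vx G e)))
    (hne : V.Nonempty) : ∃ w Z, Z ⊆ E ∧ V = insert w (Z.image (vx G e)) ∧
      (∀ z ∈ Z, (z ++ [e]) <+: w) ∧ Z.card + 1 = V.card := by
  classical
  have hcard : ∀ (w : W) (Z : Finset W), Z ⊆ E → (∀ z ∈ Z, (z ++ [e]) <+: w) →
      Z.card + 1 = (insert w (Z.image (vx G e))).card := by
    intro w Z hZ hw
    rw [Finset.card_insert_of_notMem (notMem_image_vx hw),
      Finset.card_image_of_injOn ((vx_inj (G := G) (hE.mono hZ)))]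
  by_cases h0 : v₀ ∈ V
  · set Z := E.filter (fun x => vx G e x ∈ V) with hZ
    have hZE : Z ⊆ E := Finset.filter_subset _ _
    have hVZ : V = insert v₀ (Z.image (vx G e)) := by
      ext v
      rw [Finset.mem_insert, Finset.mem_image]
      constructor
      · intro hvV
        rcases Finset.mem_insert.1 (hV hvV) with h | h
        · exact Or.inl h
        · obtain ⟨x, hx, rfl⟩ := Finset.mem_image.1 h
          exact Or.inr ⟨x, Finset.mem_filter.2 ⟨hx, hvV⟩, rfl⟩
      · rintro (h | ⟨x, hx, rfl⟩)
        · rw [h]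
          exact h0
        · exact (Finset.mem_filter.1 hx).2
    refine ⟨v₀, Z, hZE, hVZ, fun z hz => hv z (hZE hz), ?_⟩
    conv_rhs => rw [hVZ]
    exact hcard v₀ Z hZE (fun z hz => hv z (hZE hz))
  · set Z' := E.filter (fun x => vx G e x ∈ V) with hZ'
    have hZE : Z' ⊆ E := Finset.filter_subset _ _
    have hVZ : V = Z'.image (vx G e) := by
      ext v
      rw [Finset.mem_image]
      constructor
      · intro hvV
        rcases Finset.mem_insert.1 (hV hvV) with h | h
        · exact absurd (h ▸ hvV) h0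
        · obtain ⟨x, hx, rfl⟩ := Finset.mem_image.1 h
          exact ⟨x, Finset.mem_filter.2 ⟨hx, hvV⟩, rfl⟩
      · rintro ⟨x, hx, rfl⟩
        exact (Finset.mem_filter.1 hx).2
    have hZne : Z'.Nonempty := by
      rw [hVZ] at hne
      exact Finset.image_nonempty.1 hne
    obtain ⟨x₀, hx₀, hlow⟩ := exists_low hZne (hE.mono hZE)
    have hZ2 : Z'.erase x₀ ⊆ E := (Finset.erase_subset _ _).trans hZE
    have hpre : ∀ z ∈ Z'.erase x₀, (z ++ [e]) <+: vx G e x₀ := by
      intro z hz
      rw [Finset.mem_erase] at hz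
      exact (hlow z hz.2 hz.1).trans_pre (prefix_vx G e x₀)
    have hV2 : V = insert (vx G e x₀) ((Z'.erase x₀).image (vx G e)) := by
      rw [hVZ, ← Finset.image_insert, Finset.insert_erase hx₀]
    refine ⟨vx G e x₀, Z'.erase x₀, hZ2, hV2, hpre, ?_⟩
    conv_rhs => rw [hV2]
    exact hcard _ _ hZ2 hpre

/-- membership in `H` depends only on the set of branching words -/
def TreeDet (G : Finset W) (H : Set (Finset W)) : Prop :=
  ∀ V V' : Finset W, (∀ v ∈ V, v ∈ G) → (∀ v ∈ V', v ∈ G) → V.card = 4 →
    V'.card = 4 → branch V = branch V' → (V ∈ H ↔ V' ∈ H)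

/-- the set of branching triples of edges -/
def FF (G : Finset W) (H : Set (Finset W)) (X : Finset W) : Prop :=
  ∃ V : Finset W, (∀ v ∈ V, v ∈ G) ∧ V.card = 4 ∧ branch V = X ∧ V ∈ H

theorem mem_iff {G : Finset W} {H : Set (Finset W)} (hH : TreeDet G H) {V : Finset W}
    (hV : ∀ v ∈ V, v ∈ G) (h4 : V.card = 4) : V ∈ H ↔ FF G H (branch V) := by
  constructor
  · intro h
    exact ⟨V, hV, h4, rfl, h⟩
  · rintro ⟨V', h1, h2, h3, h⟩
    exact (hH V' V h1 hV h2 h4 h3).1 h

theorem exists_sorted {e : Bool} {Z : Finset W} (hc : Chn e Z) (h3 : Z.card = 3) :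
    ∃ x ∈ Z, ∃ y ∈ Z, ∃ z ∈ Z, SB e y x ∧ SB e z y ∧ Z = {x, y, z} := by
  obtain ⟨x, hx, hlow⟩ := exists_low (Finset.card_pos.1 (by omega)) hc
  have h2 := Finset.card_erase_add_one hx
  obtain ⟨y, hy, hlow2⟩ := exists_low (E := Z.erase x) (Finset.card_pos.1 (by omega))
    (hc.mono (Finset.erase_subset _ _))
  have h1 := Finset.card_erase_add_one hy
  obtain ⟨z, hz⟩ := Finset.card_eq_one.1 (show ((Z.erase x).erase y).card = 1 by omega)
  have hz' : z ∈ (Z.erase x).erase y := by
    rw [hz]
    exact Finset.mem_singleton_self z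
  have hzx := Finset.mem_of_mem_erase hz'
  have hyZ := Finset.mem_of_mem_erase hy
  refine ⟨x, hx, y, hyZ, z, Finset.mem_of_mem_erase hzx, hlow y hyZ (Finset.ne_of_mem_erase hy),
    hlow2 z hzx (Finset.ne_of_mem_erase hz'), ?_⟩
  rw [← Finset.insert_erase hx, ← Finset.insert_erase hy, hz]

/-- a chain clique with `s` nodes gives a clique with `s + 1` vertices -/
theorem noClique {G : Finset W} {s : ℕ} {H : Set (Finset W)} (hH : TreeDet G H) (hs : 1 ≤ s)
    (hfree : ¬ ∃ Q : Finset W, (∀ v ∈ Q, v ∈ G) ∧ Q.card = s + 1 ∧ IsClique H Q) :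
    NoClique (fun a b c => FF G H {a, b, c}) (Nd G) s := by
  classical
  intro e E hE hlen hc hcl
  apply hfree
  have hc' : Chn e E := hc
  obtain ⟨x₀, hx₀, hlow⟩ := exists_low (Finset.card_pos.1 (by omega : 0 < E.card)) hc'
  set v₀ := pk G (x₀ ++ [e]) with hv₀
  have hv : ∀ x ∈ E, (x ++ [e]) <+: v₀ := by
    intro x hx
    by_cases h : x = x₀
    · rw [h]
      exact prefix_pk _ _
    · exact (hlow x hx h).trans_pre ((List.prefix_append x₀ [e]).trans (prefix_pk _ _))
  have hlenQ : ∀ v ∈ insert v₀ (E.image (vx G e)), v ∈ G := by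
    intro v hv'
    rcases Finset.mem_insert.1 hv' with h | h
    · rw [h]
      exact pk_mem (hlen x₀ hx₀ e)
    · obtain ⟨x, hx, rfl⟩ := Finset.mem_image.1 h
      exact vx_mem (hlen x hx)
  refine ⟨insert v₀ (E.image (vx G e)), hlenQ, ?_, ?_⟩
  · rw [Finset.card_insert_of_notMem (notMem_image_vx hv), Finset.card_image_of_injOn (vx_inj hc'), hE]
  · intro V hV h4
    obtain ⟨w, Z, hZE, hVZ, hw, hcard⟩ := sub_comb hc' hv hV (Finset.card_pos.1 (by omega))
    rw [mem_iff hH (fun v hv => hlenQ v (hV hv)) h4]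
    have hb : branch V = Z := by
      rw [hVZ]
      exact branch_chain G e w _ Z rfl (hc'.mono hZE) hw
    rw [hb]
    obtain ⟨x, hx, y, hy, z, hz, h1, h2, h3⟩ := exists_sorted (hc'.mono hZE) (by omega : Z.card = 3)
    rw [h3]
    exact hcl x (hZE hx) y (hZE hy) z (hZE hz) h1 h2

/-- domination -/
theorem domination {G : Finset W} {s L : ℕ} {H : Set (Finset W)} (hH : TreeDet G H) (hs : 3 ≤ s)
    (hfree : ¬ ∃ Q : Finset W, (∀ v ∈ Q, v ∈ G) ∧ Q.card = s + 1 ∧ IsClique H Q)
    (hL : ∀ S : Finset W, (∀ v ∈ S, v ∈ G) → S.card = L →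
      ∃ Q ⊆ S, Q.card = s ∧ IsClique H Q) :
    ∀ D : Finset W, D.card = L → (∀ b ∈ D, Nd G b) →
      (∀ b ∈ D, ∀ a ∈ D, a ≠ b → LB b a ∨ LB a b) →
      ∃ b ∈ D, ∃ Q ⊆ D, Q.card = s - 2 ∧ (∀ a ∈ Q, LB b a) ∧
        ∀ c : W, Nd G c → (b ++ [true]) <+: c → ∃ a ∈ Q, ¬ FF G H {a, b, c} := by
  classical
  intro D hD hlen hc
  have hDc : Chn false D := fun c hc1 c' hc2 hne => hc c hc1 c' hc2 hne.symm
  have hinj := vx_inj (G := G) hDc
  obtain ⟨Q, hQ, hQs, hQc⟩ := hL (D.image (vx G false)) (by
    intro v hv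
    obtain ⟨x, hx, rfl⟩ := Finset.mem_image.1 hv
    exact vx_mem (hlen x hx)) (by rw [Finset.card_image_of_injOn hinj, hD])
  have hQlen : ∀ v ∈ Q, v ∈ G := by
    intro v hv
    obtain ⟨x, hx, rfl⟩ := Finset.mem_image.1 (hQ hv)
    exact vx_mem (hlen x hx)
  -- the nodes of the clique
  obtain ⟨E', hE'D, hE'Q⟩ : ∃ E' ⊆ D, Q = E'.image (vx G false) := by
    obtain ⟨E', h1, h2⟩ := Finset.subset_image_iff.1 hQ
    exact ⟨E', by exact_mod_cast h1, h2.symm⟩
  have hE'c : Chn false E' := hDc.mono hE'D
  have hE's : E'.card = s := by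
    rw [← hQs, hE'Q, Finset.card_image_of_injOn (vx_inj hE'c)]
  obtain ⟨x₀, hx₀, hlow⟩ := exists_low (Finset.card_pos.1 (by omega : 0 < E'.card)) hE'c
  set E := E'.erase x₀ with hE
  have hEE' : E ⊆ E' := Finset.erase_subset _ _
  have hEc : Chn false E := hE'c.mono hEE'
  have hEcard : E.card + 1 = s := by
    rw [hE, Finset.card_erase_add_one hx₀, hE's]
  have hEcl : ∀ Z ⊆ E, Z.card = 3 → FF G H Z := by
    intro Z hZ hZ3
    have hw : ∀ z ∈ Z, (z ++ [false]) <+: vx G false x₀ := by
      intro z hz
      have h1 := Finset.mem_erase.1 (hZ hz)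
      exact (hlow z h1.2 h1.1).trans_pre (prefix_vx G false x₀)
    have hsub : insert (vx G false x₀) (Z.image (vx G false)) ⊆ Q := by
      rw [hE'Q]
      intro v hv
      rcases Finset.mem_insert.1 hv with h | h
      · rw [h]
        exact Finset.mem_image_of_mem _ hx₀
      · exact Finset.image_subset_image (hZ.trans hEE') h
    have hcard : (insert (vx G false x₀) (Z.image (vx G false))).card = 4 := by
      rw [Finset.card_insert_of_notMem (notMem_image_vx hw),
        Finset.card_image_of_injOn (vx_inj (hEc.mono hZ)), hZ3]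
    have h1 := hQc _ hsub hcard
    rw [mem_iff hH (fun v hv => hQlen v (hsub hv)) hcard,
      branch_chain G false _ _ Z rfl (hEc.mono hZ) hw] at h1
    exact h1
  obtain ⟨b, hb, htop⟩ := exists_top (Finset.card_pos.1 (by omega : 0 < E.card)) hEc
  have hbcard : (E.erase b).card = s - 2 := by
    have := Finset.card_erase_add_one hb
    omega
  have hbD : b ∈ D := hE'D (hEE' hb)
  refine ⟨b, hbD, E.erase b, ((Finset.erase_subset _ _).trans hEE').trans hE'D, hbcard, ?_, ?_⟩
  · intro a ha
    have h1 := Finset.mem_erase.1 ha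
    exact htop a h1.2 h1.1
  intro c hcM hbc
  by_contra hno
  push Not at hno
  apply hfree
  set R := E.erase b with hR
  have hRE : R ⊆ E := Finset.erase_subset _ _
  have hRc : Chn false R := hEc.mono hRE
  have hRb : ∀ a ∈ R, SB false b a := by
    intro a ha
    have h1 := Finset.mem_erase.1 ha
    exact htop a h1.2 h1.1
  set v₀ := vx G false x₀ with hv₀
  have hv : ∀ x ∈ E, (x ++ [false]) <+: v₀ := by
    intro z hz
    have h1 := Finset.mem_erase.1 hz
    exact (hlow z h1.2 h1.1).trans_pre (prefix_vx G false x₀)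
  set A := insert v₀ (R.image (vx G false)) with hA
  set w₁ := pk G (c ++ [false]) with hw₁
  set w₂ := pk G (c ++ [true]) with hw₂
  have hw12 : w₁ ≠ w₂ := by
    intro h
    have h1 : (c ++ [false]) <+: w₁ := prefix_pk _ _
    have h2 : (c ++ [true]) <+: w₂ := prefix_pk _ _
    rw [← h] at h2
    exact absurd (side_unique h1 h2) (by decide)
  have hlcp : lcp w₁ w₂ = c := lcp_eq (by decide) (prefix_pk _ _) (prefix_pk _ _)
  have hAe : ∀ v ∈ A, (b ++ [false]) <+: v := by
    intro v hv'
    rcases Finset.mem_insert.1 hv' with h | h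
    · rw [h]
      exact hv b hb
    · obtain ⟨x, hx, rfl⟩ := Finset.mem_image.1 h
      exact (hRb x hx).trans_pre (prefix_vx G false x)
  have hBe : ∀ v ∈ ({w₁, w₂} : Finset W), (b ++ [!false]) <+: v := by
    intro v hv'
    rw [Finset.mem_insert, Finset.mem_singleton] at hv'
    rcases hv' with h | h
    · rw [h]
      exact (hbc.trans (List.prefix_append c [false])).trans (prefix_pk _ _)
    · rw [h]
      exact (hbc.trans (List.prefix_append c [true])).trans (prefix_pk _ _)
  have hlenA : ∀ v ∈ A, v ∈ G := by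
    intro v hv'
    rcases Finset.mem_insert.1 hv' with h | h
    · rw [h]
      exact vx_mem (hlen x₀ (hE'D hx₀))
    · obtain ⟨x, hx, rfl⟩ := Finset.mem_image.1 h
      exact vx_mem (hlen x (hE'D (hEE' (hRE hx))))
  have hlenB : ∀ v ∈ ({w₁, w₂} : Finset W), v ∈ G := by
    intro v hv'
    rw [Finset.mem_insert, Finset.mem_singleton] at hv'
    rcases hv' with h | h
    · rw [h]
      exact pk_mem (hcM false)
    · rw [h]
      exact pk_mem (hcM true)
  have hdis : Disjoint A ({w₁, w₂} : Finset W) := by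
    rw [Finset.disjoint_left]
    intro v h1 h2
    exact absurd (side_unique (hAe v h1) (hBe v h2)) (by decide)
  have hRcard : A.card = s - 1 := by
    rw [hA, Finset.card_insert_of_notMem (notMem_image_vx fun x hx => hv x (hRE hx)),
      Finset.card_image_of_injOn (vx_inj hRc), hbcard]
    omega
  refine ⟨A ∪ {w₁, w₂}, ?_, ?_, ?_⟩
  · intro v hv'
    rcases Finset.mem_union.1 hv' with h | h
    · exact hlenA v h
    · exact hlenB v h
  · rw [Finset.card_union_of_disjoint hdis, hRcard, Finset.card_pair hw12]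
    omega
  · intro V hV h4
    have hlenV : ∀ v ∈ V, v ∈ G := by
      intro v hv'
      rcases Finset.mem_union.1 (hV hv') with h | h
      · exact hlenA v h
      · exact hlenB v h
    rw [mem_iff hH hlenV h4]
    set VA := V ∩ A with hVA
    set VB := V ∩ {w₁, w₂} with hVB
    have hVAB : V = VA ∪ VB := by
      rw [hVA, hVB, ← Finset.inter_union_distrib_left]
      exact (Finset.inter_eq_left.2 hV).symm
    have hdis' : Disjoint VA VB :=
      Finset.disjoint_of_subset_left Finset.inter_subset_right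
        (Finset.disjoint_of_subset_right Finset.inter_subset_right hdis)
    have hcardAB : VA.card + VB.card = 4 := by
      rw [← Finset.card_union_of_disjoint hdis', ← hVAB, h4]
    have hVB2 : VB.card ≤ 2 := by
      refine (Finset.card_le_card Finset.inter_subset_right).trans ?_
      rw [Finset.card_pair hw12]
    have hVAne : VA.Nonempty := Finset.card_pos.1 (by omega)
    obtain ⟨w, Z, hZR, hVZ, hw, hZcard⟩ := sub_comb (G := G) hRc (fun x hx => hv x (hRE hx))
      (show VA ⊆ insert v₀ (R.image (vx G false)) from Finset.inter_subset_right) hVAne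
    have hbA : branch VA = Z := by
      rw [hVZ]
      exact branch_chain G false w _ Z rfl (hRc.mono hZR) hw
    rcases Nat.eq_zero_or_pos VB.card with hB0 | hBpos
    · have hVBe : VB = ∅ := Finset.card_eq_zero.1 hB0
      rw [hVAB, hVBe, Finset.union_empty, hbA]
      exact hEcl Z (hZR.trans hRE) (by omega)
    · have hVBne : VB.Nonempty := Finset.card_pos.1 hBpos
      have hbr : branch V = Z ∪ branch VB ∪ {b} := by
        rw [← hbA]
        conv_lhs => rw [hVAB]
        exact branch_union (e := false) hVAne hVBne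
          (fun v hv' => hAe v (Finset.inter_subset_right hv'))
          (fun v hv' => hBe v (Finset.inter_subset_right hv'))
      have hbZ : b ∉ Z := fun h => (Finset.mem_erase.1 (hZR h)).1 rfl
      rw [hbr]
      rcases Nat.lt_or_ge VB.card 2 with h1 | h2
      · obtain ⟨w', hw'⟩ := Finset.card_eq_one.1 (show VB.card = 1 by omega)
        rw [hw', branch_singleton, Finset.union_empty]
        apply hEcl
        · intro x hx
          rcases Finset.mem_union.1 hx with h | h
          · exact hRE (hZR h)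
          · rw [Finset.mem_singleton.1 h]
            exact hb
        · rw [Finset.card_union_of_disjoint (Finset.disjoint_singleton_right.2 hbZ),
            Finset.card_singleton]
          have : VB.card = 1 := by omega
          omega
      · have hVBeq : VB = {w₁, w₂} :=
          Finset.eq_of_subset_of_card_le Finset.inter_subset_right
            (by rw [Finset.card_pair hw12]; exact h2)
        rw [hVBeq, branch_pair hw12, hlcp]
        obtain ⟨x, hx⟩ := Finset.card_eq_one.1 (show Z.card = 1 by omega)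
        rw [hx]
        have hxR : x ∈ R := hZR (by rw [hx]; exact Finset.mem_singleton_self x)
        have h5 := hno x hxR
        have h6 : ({x} ∪ {c} ∪ {b} : Finset W) = {x, b, c} := by
          ext y
          simp only [Finset.mem_union, Finset.mem_singleton, Finset.mem_insert]
          tauto
        rw [h6]
        exact h5

end Pool.TreeBar
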