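import Pool.Agent.Lib.MP_add94d_co.Barrier.Graph

/-!
# The leaves of a clean tree contain no clique with five vertices
-/

set_option autoImplicit false

open Finset

namespace Pool.TreeBar

open BT

/-- the leaves of an embedded tree, as vertices -/
noncomputable def leavesOf (G : Finset W) : W → BT → Finset W
  | p, BT.leaf => {pk G p}
  | _, BT.node b l r => leavesOf G (b ++ [false]) l ∪ leavesOf G (b ++ [true]) r

theorem leaves_prefix (G : Finset W) (T : BT) : ∀ p, Under p T → ∀ v ∈ leavesOf G p T, p <+: v := by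
  induction T with
  | leaf =>
    intro p _ v hv
    rw [leavesOf, Finset.mem_singleton] at hv
    rw [hv]
    exact prefix_pk G p
  | node b l r ihl ihr =>
    intro p hp v hv
    rw [leavesOf, Finset.mem_union] at hv
    rcases hv with h | h
    · exact (hp.1.trans (List.prefix_append b [false])).trans (ihl _ hp.2.1 v h)
    · exact (hp.1.trans (List.prefix_append b [true])).trans (ihr _ hp.2.2 v h)

theorem leaves_mem (G : Finset W) (T : BT) : ∀ p : W, (∃ v ∈ G, p <+: v) →
    (∀ x ∈ T.nodes, Nd G x) → ∀ v ∈ leavesOf G p T, v ∈ G := by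
  induction T with
  | leaf =>
    intro p hp _ v hv
    rw [leavesOf, Finset.mem_singleton] at hv
    rw [hv]
    exact pk_mem hp
  | node b l r ihl ihr =>
    intro p _ hx v hv
    have hb : Nd G b := hx b (by simp [BT.nodes])
    rw [leavesOf, Finset.mem_union] at hv
    rcases hv with h | h
    · exact ihl _ (hb false) (fun x hx' => hx x (by simp [BT.nodes, hx'])) v h
    · exact ihr _ (hb true) (fun x hx' => hx x (by simp [BT.nodes, hx'])) v h

theorem leaves_card (G : Finset W) (T : BT) : ∀ (h : ℕ) (p : W), Full h T → Under p T →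
    (leavesOf G p T).card = 2 ^ h := by
  induction T with
  | leaf =>
    intro h p hT _
    cases h with
    | zero => rw [leavesOf, Finset.card_singleton, pow_zero]
    | succ h => exact absurd hT (by simp [Full])
  | node b l r ihl ihr =>
    intro h p hT hp
    cases h with
    | zero => exact absurd hT (by simp [Full])
    | succ h =>
      rw [leavesOf, Finset.card_union_of_disjoint, ihl h _ hT.1 hp.2.1, ihr h _ hT.2 hp.2.2, pow_succ]
      · omega
      · rw [Finset.disjoint_left]
        intro v h1 h2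
        exact absurd (side_unique (leaves_prefix G l _ hp.2.1 v h1)
          (leaves_prefix G r _ hp.2.2 v h2)) (by decide)

theorem leaves_node (G : Finset W) (e : Bool) (p b : W) (l r : BT) :
    leavesOf G p (BT.node b l r) =
      leavesOf G (b ++ [e]) (ch e l r) ∪ leavesOf G (b ++ [!e]) (ch (!e) l r) := by
  cases e
  · rfl
  · rw [Finset.union_comm]
    rfl

/-- subsets of the leaves of a node are divided by the two sides -/
theorem divide {G : Finset W} {p b : W} {l r : BT} (hU : Under p (BT.node b l r)) (e : Bool)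
    {V : Finset W} (hV : V ⊆ leavesOf G p (BT.node b l r)) :
    ∃ A B : Finset W, V = A ∪ B ∧ A ⊆ leavesOf G (b ++ [e]) (ch e l r) ∧
      B ⊆ leavesOf G (b ++ [!e]) (ch (!e) l r) ∧ A.card + B.card = V.card ∧
      (∀ v ∈ A, (b ++ [e]) <+: v) ∧ (∀ v ∈ B, (b ++ [!e]) <+: v) := by
  classical
  have hA : ∀ v ∈ V ∩ leavesOf G (b ++ [e]) (ch e l r), (b ++ [e]) <+: v := fun v hv =>
    leaves_prefix G _ _ (under_ch hU) v (Finset.mem_inter.1 hv).2
  have hB : ∀ v ∈ V ∩ leavesOf G (b ++ [!e]) (ch (!e) l r), (b ++ [!e]) <+: v := fun v hv =>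
    leaves_prefix G _ _ (under_ch hU) v (Finset.mem_inter.1 hv).2
  have heq : V = (V ∩ leavesOf G (b ++ [e]) (ch e l r)) ∪
      (V ∩ leavesOf G (b ++ [!e]) (ch (!e) l r)) := by
    rw [← Finset.inter_union_distrib_left, ← leaves_node G e p b l r]
    exact (Finset.inter_eq_left.2 hV).symm
  refine ⟨_, _, heq, Finset.inter_subset_right, Finset.inter_subset_right, ?_, hA, hB⟩
  rw [← Finset.card_union_of_disjoint, ← heq]
  rw [Finset.disjoint_left]
  intro v h1 h2
  have := side_unique (hA v h1) (hB v h2)
  cases e <;> simp at this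

theorem two_leaves {G : Finset W} {T : BT} : ∀ p, Under p T → ∀ u ∈ leavesOf G p T,
    ∀ v ∈ leavesOf G p T, u ≠ v → lcp u v ∈ T.nodes := by
  induction T with
  | leaf =>
    intro p _ u hu v hv hne
    rw [leavesOf, Finset.mem_singleton] at hu hv
    exact absurd (hu.trans hv.symm) hne
  | node b l r ihl ihr =>
    intro p hp u hu v hv hne
    rw [leavesOf, Finset.mem_union] at hu hv
    simp only [BT.nodes, List.mem_cons, List.mem_append]
    rcases hu with hu | hu <;> rcases hv with hv | hv
    · exact Or.inr (Or.inl (ihl _ hp.2.1 u hu v hv hne))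
    · left
      exact lcp_eq (by decide) (leaves_prefix G _ _ hp.2.1 u hu) (leaves_prefix G _ _ hp.2.2 v hv)
    · left
      exact lcp_eq (by decide) (leaves_prefix G _ _ hp.2.2 u hu) (leaves_prefix G _ _ hp.2.1 v hv)
    · exact Or.inr (Or.inr (ihr _ hp.2.2 u hu v hv hne))

theorem CC.child {e e' : Bool} {P : W → W → Prop} {b : W} {l r : BT}
    (h : CC e P (BT.node b l r)) : CC e P (ch e' l r) := by
  cases e'
  · exact h.2.1
  · exact h.2.2

theorem Clean.child {e' : Bool} {f : W → W → W → Prop} {b : W} {l r : BT}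
    (h : Clean f (BT.node b l r)) : Clean f (ch e' l r) := by
  cases e'
  · exact h.2.1
  · exact h.2.2

theorem branch_two {G : Finset W} {p : W} {T : BT} (hU : Under p T) {A : Finset W}
    (hA : A ⊆ leavesOf G p T) (h2 : A.card = 2) : ∃ y ∈ T.nodes, branch A = {y} := by
  obtain ⟨u, v, hne, rfl⟩ := Finset.card_eq_two.1 h2
  refine ⟨lcp u v, two_leaves p hU u (hA (by simp)) v (hA (by simp)) hne, branch_pair hne⟩

theorem three {G : Finset W} {T : BT} : ∀ p, Under p T → ∀ A ⊆ leavesOf G p T, A.card = 3 →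
    ∃ (e : Bool) (y z : W), branch A = {y, z} ∧ ∀ P : W → W → Prop, CC e P T → P y z := by
  classical
  induction T with
  | leaf =>
    intro p _ A hA h3
    have := Finset.card_le_card hA
    rw [leavesOf, Finset.card_singleton] at this
    omega
  | node b l r ihl ihr =>
    intro p hp A hA h3
    have key : ∀ e : Bool, ∀ A₁ B₁ : Finset W, A = A₁ ∪ B₁ →
        A₁ ⊆ leavesOf G (b ++ [e]) (ch e l r) → (∀ v ∈ A₁, (b ++ [e]) <+: v) →
        (∀ v ∈ B₁, (b ++ [!e]) <+: v) → A₁.card = 2 → B₁.card = 1 →
        ∃ (e : Bool) (y z : W), branch A = {y, z} ∧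
          ∀ P : W → W → Prop, CC e P (BT.node b l r) → P y z := by
      intro e A₁ B₁ hAB hA₁ hAe hBe h2 h1
      obtain ⟨y, hy, hbr⟩ := branch_two (under_ch (e := e) hp) hA₁ h2
      refine ⟨e, y, b, ?_, fun P hP => hP.1 y hy⟩
      rw [hAB, branch_union (Finset.card_pos.1 (by omega)) (Finset.card_pos.1 (by omega)) hAe hBe,
        hbr]
      obtain ⟨w, hw⟩ := Finset.card_eq_one.1 h1
      rw [hw, branch_singleton, Finset.union_empty]
      rfl
    obtain ⟨A₁, B₁, hAB, hA₁, hB₁, hcard, hAe, hBe⟩ := divide hp false hA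
    rcases Nat.lt_or_ge A₁.card 1 with h | h
    · have h0 : A₁ = ∅ := Finset.card_eq_zero.1 (by omega)
      rw [h0, Finset.empty_union] at hAB
      subst hAB
      obtain ⟨e, y, z, h4, h5⟩ := ihr _ hp.2.2 A hB₁ h3
      exact ⟨e, y, z, h4, fun P hP => h5 P hP.2.2⟩
    rcases Nat.lt_or_ge B₁.card 1 with h' | h'
    · have h0 : B₁ = ∅ := Finset.card_eq_zero.1 (by omega)
      rw [h0, Finset.union_empty] at hAB
      subst hAB
      obtain ⟨e, y, z, h4, h5⟩ := ihl _ hp.2.1 A hA₁ h3
      exact ⟨e, y, z, h4, fun P hP => h5 P hP.2.1⟩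
    rcases Nat.lt_or_ge A₁.card 2 with h2 | h2
    · exact key true B₁ A₁ (by rw [hAB, Finset.union_comm]) hB₁ hBe hAe (by omega) (by omega)
    · exact key false A₁ B₁ hAB hA₁ hAe hBe (by omega) (by omega)

/-- an edge of a clean tree is a zigzag -/
theorem four {F : Finset W → Prop} {G : Finset W} {T : BT} :
    ∀ p, Under p T → Clean (fun a b c => F {a, b, c}) T → ∀ V ⊆ leavesOf G p T, V.card = 4 →
    F (branch V) → ∀ e : Bool, ∃ A ⊆ V, A.card = 3 ∧ ∃ y z : W, branch A = {y, z} ∧
      ∀ P : W → W → Prop, CC e P T → P y z := by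
  classical
  induction T with
  | leaf =>
    intro p _ _ A hA h3
    have := Finset.card_le_card hA
    rw [leavesOf, Finset.card_singleton] at this
    omega
  | node b l r ihl ihr =>
    intro p hp hC V hV h4 hF e
    have key : ∀ e' : Bool, ∀ A₁ B₁ : Finset W, V = A₁ ∪ B₁ →
        A₁ ⊆ leavesOf G (b ++ [e']) (ch e' l r) → (∀ v ∈ A₁, (b ++ [e']) <+: v) →
        (∀ v ∈ B₁, (b ++ [!e']) <+: v) → A₁.card = 3 → B₁.card = 1 →
        ∃ A ⊆ V, A.card = 3 ∧ ∃ y z : W, branch A = {y, z} ∧
          ∀ P : W → W → Prop, CC e P (BT.node b l r) → P y z := by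
      intro e' A₁ B₁ hAB hA₁ hAe hBe h3 h1
      obtain ⟨w, hw⟩ := Finset.card_eq_one.1 h1
      obtain ⟨e₁, y, z, hbr, hP⟩ := three _ (under_ch (e := e') hp) A₁ hA₁ h3
      have hbV : branch V = {y, z, b} := by
        rw [hAB, branch_union (Finset.card_pos.1 (by omega)) (Finset.card_pos.1 (by omega)) hAe hBe,
          hbr, hw, branch_singleton, Finset.union_empty]
        ext x
        simp only [Finset.mem_union, Finset.mem_insert, Finset.mem_singleton]
        tauto
      by_cases he : e₁ = e'
      · exfalso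
        rw [hbV] at hF
        have h5 : CC e' (fun a b' => ¬ F {a, b', b}) (ch e' l r) := by
          cases e'
          · exact hC.1.2.1
          · exact hC.1.2.2
        subst he
        exact hP _ h5 hF
      · by_cases hee : e = e₁
        · subst hee
          refine ⟨A₁, by rw [hAB]; exact Finset.subset_union_left, h3, y, z, hbr, fun P h5 => ?_⟩
          exact hP P h5.child
        · have he' : e = e' := by
            cases e <;> cases e' <;> cases e₁ <;> simp_all
          subst he'
          obtain ⟨A₂, hA₂, h2⟩ := Finset.exists_subset_card_eq (show 2 ≤ A₁.card by omega)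
          obtain ⟨y', hy', hbr'⟩ := branch_two (under_ch (e := e) hp) (hA₂.trans hA₁) h2
          have hdis : Disjoint A₂ B₁ := by
            rw [Finset.disjoint_left]
            intro v h5 h6
            have := side_unique (hAe v (hA₂ h5)) (hBe v h6)
            cases e <;> simp at this
          refine ⟨A₂ ∪ B₁, ?_, ?_, y', b, ?_, fun P h5 => h5.1 y' hy'⟩
          · rw [hAB]
            exact Finset.union_subset_union_left hA₂
          · rw [Finset.card_union_of_disjoint hdis, h2, h1]
          · rw [branch_union (Finset.card_pos.1 (by omega)) (Finset.card_pos.1 (by omega))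
              (fun v hv => hAe v (hA₂ hv)) hBe, hbr', hw, branch_singleton, Finset.union_empty]
            rfl
    obtain ⟨A₁, B₁, hAB, hA₁, hB₁, hcard, hAe, hBe⟩ := divide hp false hV
    rcases Nat.lt_or_ge A₁.card 1 with h | h
    · have h0 : A₁ = ∅ := Finset.card_eq_zero.1 (by omega)
      rw [h0, Finset.empty_union] at hAB
      subst hAB
      obtain ⟨A, hA, h3, y, z, h5, h6⟩ := ihr _ hp.2.2 hC.2.2 V hB₁ h4 hF e
      exact ⟨A, hA, h3, y, z, h5, fun P hP => h6 P hP.2.2⟩
    rcases Nat.lt_or_ge B₁.card 1 with h' | h'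
    · have h0 : B₁ = ∅ := Finset.card_eq_zero.1 (by omega)
      rw [h0, Finset.union_empty] at hAB
      subst hAB
      obtain ⟨A, hA, h3, y, z, h5, h6⟩ := ihl _ hp.2.1 hC.2.1 V hA₁ h4 hF e
      exact ⟨A, hA, h3, y, z, h5, fun P hP => h6 P hP.2.1⟩
    rcases Nat.lt_or_ge A₁.card 2 with h2 | h2
    · exact key true B₁ A₁ (by rw [hAB, Finset.union_comm]) hB₁ hBe hAe (by omega) (by omega)
    rcases Nat.lt_or_ge B₁.card 2 with h2' | h2'
    · exact key false A₁ B₁ hAB hA₁ hAe hBe (by omega) (by omega)
    -- the split case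
    exfalso
    obtain ⟨y, hy, hbr⟩ := branch_two (under_ch (e := false) hp) hA₁ (by omega)
    obtain ⟨z, hz, hbr'⟩ := branch_two (under_ch (e := true) hp) hB₁ (by omega)
    have hbV : branch V = {y, b, z} := by
      rw [hAB, branch_union (Finset.card_pos.1 (by omega)) (Finset.card_pos.1 (by omega)) hAe hBe,
        hbr, hbr']
      ext x
      simp only [Finset.mem_union, Finset.mem_insert, Finset.mem_singleton]
      tauto
    rw [hbV] at hF
    exact hC.1.1 y hy z hz hF

/-- every five leaves of a clean tree contain a non-edge -/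
theorem five {F : Finset W → Prop} {G : Finset W} {T : BT} :
    ∀ p, Under p T → Clean (fun a b c => F {a, b, c}) T → ∀ V ⊆ leavesOf G p T, V.card = 5 →
    ∃ A ⊆ V, A.card = 4 ∧ ¬ F (branch A) := by
  classical
  induction T with
  | leaf =>
    intro p _ _ A hA h3
    have := Finset.card_le_card hA
    rw [leavesOf, Finset.card_singleton] at this
    omega
  | node b l r ihl ihr =>
    intro p hp hC V hV h5
    have key : ∀ e : Bool, ∀ A₁ B₁ : Finset W, V = A₁ ∪ B₁ →
        A₁ ⊆ leavesOf G (b ++ [e]) (ch e l r) → (∀ v ∈ A₁, (b ++ [e]) <+: v) →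
        (∀ v ∈ B₁, (b ++ [!e]) <+: v) → A₁.card = 4 → B₁.card = 1 →
        ∃ A ⊆ V, A.card = 4 ∧ ¬ F (branch A) := by
      intro e A₁ B₁ hAB hA₁ hAe hBe h4 h1
      obtain ⟨w, hw⟩ := Finset.card_eq_one.1 h1
      by_cases hF : F (branch A₁)
      · obtain ⟨A₂, hA₂, h3, y, z, hbr, hP⟩ := four _ (under_ch (e := e) hp) hC.child A₁ hA₁ h4 hF e
        have hdis : Disjoint A₂ B₁ := by
          rw [Finset.disjoint_left]
          intro v h5 h6
          have := side_unique (hAe v (hA₂ h5)) (hBe v h6)
          cases e <;> simp at this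
        refine ⟨A₂ ∪ B₁, ?_, ?_, ?_⟩
        · rw [hAB]
          exact Finset.union_subset_union_left hA₂
        · rw [Finset.card_union_of_disjoint hdis, h3, h1]
        · have hbV : branch (A₂ ∪ B₁) = {y, z, b} := by
            rw [branch_union (Finset.card_pos.1 (by omega)) (Finset.card_pos.1 (by omega))
              (fun v hv => hAe v (hA₂ hv)) hBe, hbr, hw, branch_singleton, Finset.union_empty]
            ext x
            simp only [Finset.mem_union, Finset.mem_insert, Finset.mem_singleton]
            tauto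
          rw [hbV]
          have h5 : CC e (fun a b' => ¬ F {a, b', b}) (ch e l r) := by
            cases e
            · exact hC.1.2.1
            · exact hC.1.2.2
          exact hP _ h5
      · exact ⟨A₁, by rw [hAB]; exact Finset.subset_union_left, h4, hF⟩
    obtain ⟨A₁, B₁, hAB, hA₁, hB₁, hcard, hAe, hBe⟩ := divide hp false hV
    rcases Nat.lt_or_ge A₁.card 1 with h | h
    · have h0 : A₁ = ∅ := Finset.card_eq_zero.1 (by omega)
      rw [h0, Finset.empty_union] at hAB
      subst hAB
      exact ihr _ hp.2.2 hC.2.2 V hB₁ h5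
    rcases Nat.lt_or_ge B₁.card 1 with h' | h'
    · have h0 : B₁ = ∅ := Finset.card_eq_zero.1 (by omega)
      rw [h0, Finset.union_empty] at hAB
      subst hAB
      exact ihl _ hp.2.1 hC.2.1 V hA₁ h5
    rcases Nat.lt_or_ge A₁.card 2 with h2 | h2
    · exact key true B₁ A₁ (by rw [hAB, Finset.union_comm]) hB₁ hBe hAe (by omega) (by omega)
    rcases Nat.lt_or_ge B₁.card 2 with h2' | h2'
    · exact key false A₁ B₁ hAB hA₁ hAe hBe (by omega) (by omega)
    -- the split case
    obtain ⟨A₂, hA₂, h3⟩ := Finset.exists_subset_card_eq h2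
    obtain ⟨B₂, hB₂, h3'⟩ := Finset.exists_subset_card_eq h2'
    obtain ⟨y, hy, hbr⟩ := branch_two (under_ch (e := false) hp) (hA₂.trans hA₁) h3
    obtain ⟨z, hz, hbr'⟩ := branch_two (under_ch (e := true) hp) (hB₂.trans hB₁) h3'
    have hdis : Disjoint A₂ B₂ := by
      rw [Finset.disjoint_left]
      intro v h5 h6
      exact absurd (side_unique (hAe v (hA₂ h5)) (hBe v (hB₂ h6))) (by decide)
    refine ⟨A₂ ∪ B₂, ?_, ?_, ?_⟩
    · rw [hAB]
      exact Finset.union_subset_union hA₂ hB₂
    · rw [Finset.card_union_of_disjoint hdis, h3, h3']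
    · have hbV : branch (A₂ ∪ B₂) = {y, b, z} := by
        rw [branch_union (Finset.card_pos.1 (by omega)) (Finset.card_pos.1 (by omega))
          (fun v hv => hAe v (hA₂ hv)) (fun v hv => hBe v (hB₂ hv)), hbr, hbr']
        ext x
        simp only [Finset.mem_union, Finset.mem_insert, Finset.mem_singleton]
        tauto
      rw [hbV]
      exact hC.1.1 y hy z hz

end Pool.TreeBar
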