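import Pool.Agent.Lib.MP_add94d_co.Barrier.Split

/-!
# Tall trees all of whose split triples are non-edges
-/

set_option autoImplicit false

open Finset

namespace Pool.TreeBar

open BT

/-- the child on the side `e` (`false` = left, `true` = right) -/
def ch (e : Bool) (l r : BT) : BT := if e then r else l

theorem ch_sub {e : Bool} {l r l' r' : BT} (hl : Sub l' l) (hr : Sub r' r) :
    Sub (ch e l' r') (ch e l r) := by
  cases e
  · exact hl
  · exact hr

/-- all split triples are non-edges -/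
def Mx (f : W → W → W → Prop) (T : BT) : Prop :=
  All (fun b l r => ∀ a ∈ l.nodes, ∀ c ∈ r.nodes, ¬ f a b c) T

/-- `f a b c` does not depend on the descendant `a` of `b` on the side `e` -/
def DicP (f : W → W → W → Prop) (e : Bool) (c : W) : W → BT → BT → Prop := fun b l r =>
  (∀ a ∈ (ch e l r).nodes, f a b c) ∨ (∀ a ∈ (ch e l r).nodes, ¬ f a b c)

/-- on one-sided chains the status of a triple depends on the two upper nodes only -/
def Good (f : W → W → W → Prop) (T : BT) : Prop :=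
  All (fun c l r => All (DicP f false c) l ∧ All (DicP f true c) r) T

theorem removeL (f : W → W → W → Prop) (b : W) (w : ℕ) (U : BT) : ∀ (As : List W) (y : ℕ),
    (∀ a ∈ As, ¬ ∃ U', Sub U' U ∧ Full w U' ∧ ∀ c ∈ U'.nodes, f a b c) →
    Full (As.length * w + y) U →
    ∃ U', Sub U' U ∧ Full y U' ∧ ∀ a ∈ As, ∀ c ∈ U'.nodes, ¬ f a b c := by
  intro As
  induction As with
  | nil =>
    intro y _ hU
    simp only [List.length_nil, zero_mul, zero_add] at hU
    exact ⟨U, Sub.refl U, hU, by simp⟩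
  | cons a As ih =>
    intro y hno hU
    have e1 : (a :: As).length * w + y = As.length * w + (w + y) := by
      simp only [List.length_cons]
      ring
    rw [e1] at hU
    obtain ⟨U₁, h1, h2, h3⟩ := ih (w + y) (fun a' ha' => hno a' (List.mem_cons_of_mem a ha')) hU
    obtain ⟨U₂, h4, h5⟩ := vcNode (fun c => f a b c) U₁ w y h2
    rcases h5 with h5 | h5
    · exact absurd ⟨U₂, h4.trans h1, h5.1, h5.2⟩ (hno a List.mem_cons_self)
    · refine ⟨U₂, h4.trans h1, h5.1, fun a' ha' c hc => ?_⟩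
      rcases List.mem_cons.1 ha' with h | h
      · rw [h]
        exact h5.2 c hc
      · exact h3 a' h c (h4.nodes c hc)

/-- the growth factor -/
def Gam (t L J : ℕ) : ℕ := L * (L * (L + 2) ^ t * 2 ^ J + 1) + (2 ^ (J + 1)) ^ t

theorem Gam_pos (t L J : ℕ) : 1 ≤ Gam t L J := by
  unfold Gam
  have : 0 < (2 ^ (J + 1)) ^ t := by positivity
  omega

theorem phase1 (f : W → W → W → Prop) (N : W → Prop) (J t L : ℕ)
    (hdom : ∀ D : Finset W, D.card = L → (∀ b ∈ D, N b) →
      (∀ b ∈ D, ∀ a ∈ D, a ≠ b → LB b a ∨ LB a b) →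
      ∃ b ∈ D, ∃ Q ⊆ D, Q.card = t ∧ (∀ a ∈ Q, LB b a) ∧
        ∀ c : W, N c → (b ++ [true]) <+: c → ∃ a ∈ Q, ¬ f a b c) :
    ∀ (j : ℕ) (T : BT) (p : W) (CL CR : Finset W), Full (Gam t L J ^ j) T → Under p T →
      (∀ x ∈ T.nodes, N x) → CL.card + j ≤ J → CR.card + j ≤ J →
      ∃ T', Full j T' ∧ Under p T' ∧ (∀ x ∈ T'.nodes, x ∈ T.nodes) ∧ Mx f T' ∧ Good f T' ∧
        (∀ c ∈ CL, All (DicP f false c) T') ∧ (∀ c ∈ CR, All (DicP f true c) T') := by
  classical
  intro j
  induction j with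
  | zero =>
    intro T p CL CR _ _ _ _ _
    exact ⟨BT.leaf, trivial, trivial, by simp [BT.nodes], trivial, trivial, fun _ _ => trivial,
      fun _ _ => trivial⟩
  | succ j ih =>
    intro T p CL CR hT hU hM hCL hCR
    set h' := Gam t L J ^ j with hh'
    have hh1 : 1 ≤ h' := Nat.one_le_pow _ _ (Gam_pos t L J)
    set u : ℕ → ℕ := fun i => (2 ^ (J + 1)) ^ (t - i) * h' with hu
    have hut : u t = h' := by simp [hu]
    have hu0 : u 0 = (2 ^ (J + 1)) ^ t * h' := by simp [hu]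
    have hui : ∀ i, h' ≤ u i := fun i => Nat.le_mul_of_pos_left h' (by positivity)
    have hsucc : ∀ i, i < t → u i = 2 ^ J * u (i + 1) + 2 ^ J * u (i + 1) := by
      intro i hi
      simp only [hu]
      have e1 : t - i = (t - (i + 1)) + 1 := by omega
      rw [e1, pow_succ, pow_succ]
      ring
    have hneed : L * (L * (L + 2) ^ t * (2 ^ J * h') + 1) + u 0 ≤ Gam t L J ^ (j + 1) := by
      have e1 : Gam t L J ^ (j + 1) = h' * Gam t L J := pow_succ _ _
      rw [hu0, e1, Gam]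
      have : L * 1 ≤ L * h' := Nat.mul_le_mul_left L hh1
      nlinarith
    obtain ⟨T₀, hT0, hT0F⟩ := hT.trim hneed
    have hM0 : ∀ x ∈ T₀.nodes, N x := fun x hx => hM x (hT0.nodes x hx)
    obtain ⟨b, A, U, i, hi, hbT, hAT, hUT, hAu, hUu, hAF, hUF, hno⟩ := split f T₀ p u t L (2 ^ J * h')
      (by rw [hut]; exact hh1) (hT0.under p hU) hT0F (fun D hD hDT hDc => by
        obtain ⟨b, hb, Q, hQ, hQt, hQL, hc⟩ := hdom D hD (fun b hb => hM0 b (hDT b hb)) hDc
        exact ⟨b, hb, Q, hQ, hQt, hQL, fun c hc' hbc => hc c (hM0 c hc') hbc⟩)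
    have hbM : N b := hM0 b hbT
    have hpb : p <+: b := (hT0.under p hU).mem b hbT
    -- the left side
    have hle1 : 2 ^ CL.card * h' ≤ 2 ^ J * h' :=
      Nat.mul_le_mul_right _ (Nat.pow_le_pow_right (by norm_num) (by omega))
    obtain ⟨A₀, hA0, hA0F⟩ := hAF.trim hle1
    obtain ⟨A₁, hA1, hA1F, hA1c⟩ := halve CL (fun c x => f x b c) A₀ h' hA0F
    have hA1A : Sub A₁ A := hA1.trans hA0
    obtain ⟨Tl, hl1, hl2, hl3, hl4, hl5, hl6, hl7⟩ := ih A₁ (b ++ [false]) (insert b CL) CR hA1F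
      (hA1A.under _ hAu) (fun x hx => hM0 x (hAT x (hA1A.nodes x hx)))
      (by have := Finset.card_insert_le b CL; omega) (by omega)
    -- the right side
    have hlen := hl1.length
    have hjJ : 2 ^ j ≤ 2 ^ J := Nat.pow_le_pow_right (by norm_num) (by omega)
    have hle2 : Tl.nodes.length * u (i + 1) + 2 ^ J * h' ≤ u i := by
      rw [hsucc i hi]
      have h1 : Tl.nodes.length * u (i + 1) ≤ 2 ^ J * u (i + 1) := Nat.mul_le_mul_right _ (by omega)
      have h2 : 2 ^ J * h' ≤ 2 ^ J * u (i + 1) := Nat.mul_le_mul_left _ (hui _)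
      omega
    obtain ⟨U₀, hU0, hU0F⟩ := hUF.trim hle2
    obtain ⟨U₁, hU1, hU1F, hU1c⟩ := removeL f b (u (i + 1)) U₀ Tl.nodes (2 ^ J * h')
      (fun a ha => by
        rintro ⟨U', h1, h2, h3⟩
        exact hno a (hA1A.nodes a (hl3 a ha)) ⟨U', h1.trans hU0, h2, h3⟩) hU0F
    have hle3 : 2 ^ CR.card * h' ≤ 2 ^ J * h' :=
      Nat.mul_le_mul_right _ (Nat.pow_le_pow_right (by norm_num) (by omega))
    obtain ⟨U₂, hU2, hU2F⟩ := hU1F.trim hle3
    obtain ⟨U₃, hU3, hU3F, hU3c⟩ := halve CR (fun c x => f x b c) U₂ h' hU2F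
    have hU3U1 : Sub U₃ U₁ := hU3.trans hU2
    have hU3U : Sub U₃ U := hU3U1.trans (hU1.trans hU0)
    obtain ⟨Tr, hr1, hr2, hr3, hr4, hr5, hr6, hr7⟩ := ih U₃ (b ++ [true]) CL (insert b CR) hU3F
      (hU3U.under _ hUu) (fun x hx => hM0 x (hUT x (hU3U.nodes x hx)))
      (by omega) (by have := Finset.card_insert_le b CR; omega)
    refine ⟨BT.node b Tl Tr, ⟨hl1, hr1⟩, ⟨hpb, hl2, hr2⟩, ?_, ⟨?_, hl4, hr4⟩, ⟨⟨?_, ?_⟩, hl5, hr5⟩, ?_, ?_⟩
    · intro x hx
      simp only [BT.nodes, List.mem_cons, List.mem_append] at hx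
      rcases hx with h | h | h
      · rw [h]
        exact hT0.nodes b hbT
      · exact hT0.nodes x (hAT x (hA1A.nodes x (hl3 x h)))
      · exact hT0.nodes x (hUT x (hU3U.nodes x (hr3 x h)))
    · intro a ha c hc
      exact hU1c a ha c (hU3U1.nodes c (hr3 c hc))
    · exact hl6 b (Finset.mem_insert_self b CL)
    · exact hr7 b (Finset.mem_insert_self b CR)
    · intro c hc
      refine ⟨?_, hl6 c (Finset.mem_insert_of_mem hc), hr6 c hc⟩
      rcases hA1c c hc with h | h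
      · exact Or.inl fun a ha => h a (hl3 a ha)
      · exact Or.inr fun a ha => h a (hl3 a ha)
    · intro c hc
      refine ⟨?_, hl7 c hc, hr7 c (Finset.mem_insert_of_mem hc)⟩
      rcases hU3c c hc with h | h
      · exact Or.inl fun a ha => h a (hr3 a ha)
      · exact Or.inr fun a ha => h a (hr3 a ha)

end Pool.TreeBar
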