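import Pool.Agent.Lib.MP_add94d_co.Barrier.Phase1

/-!
# Removing the edges on one-sided chains
-/

set_option autoImplicit false

open Finset

namespace Pool.TreeBar

open BT

/-- `a` lies in the subtree of `b` on the side `e` -/
def SB (e : Bool) (b a : W) : Prop := (b ++ [e]) <+: a

theorem SB.length {e : Bool} {b a : W} (h : SB e b a) : b.length < a.length := by
  have := h.length_le
  simp only [List.length_append, List.length_cons, List.length_nil] at this
  omega

theorem under_ch {e : Bool} {p b : W} {l r : BT} (h : Under p (BT.node b l r)) :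
    Under (b ++ [e]) (ch e l r) := by
  cases e
  · exact h.2.1
  · exact h.2.2

theorem ch_nodes {e : Bool} {b : W} {l r : BT} {x : W} (h : x ∈ (ch e l r).nodes) :
    x ∈ (BT.node b l r).nodes := by
  simp only [BT.nodes, List.mem_cons, List.mem_append]
  cases e
  · exact Or.inr (Or.inl h)
  · exact Or.inr (Or.inr h)

theorem sub_ch {e : Bool} {b : W} {l r X : BT} (h : Sub X (ch e l r)) : Sub X (BT.node b l r) := by
  cases e
  · exact Sub.left _ _ _ _ h
  · exact Sub.right _ _ _ _ h

theorem full_ch {e : Bool} {b : W} {l r : BT} {h : ℕ} (hT : Full (h + 1) (BT.node b l r)) :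
    Full h (ch e l r) := by
  cases e
  · exact hT.1
  · exact hT.2

theorem anti_ch (e : Bool) (P : W → W → Prop) :
    Anti (fun b l r => ∀ a ∈ (ch e l r).nodes, P a b) := by
  intro b l r l' r' hl hr h a ha
  exact h a ((ch_sub hl hr).nodes a ha)

theorem anti_DicP (f : W → W → W → Prop) (e : Bool) (c : W) : Anti (DicP f e c) := by
  intro b l r l' r' hl hr h
  rcases h with h | h
  · exact Or.inl fun a ha => h a ((ch_sub hl hr).nodes a ha)
  · exact Or.inr fun a ha => h a ((ch_sub hl hr).nodes a ha)

theorem anti_good (f : W → W → W → Prop) :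
    Anti (fun c l r => All (DicP f false c) l ∧ All (DicP f true c) r) := by
  intro c l r l' r' hl hr h
  exact ⟨All.sub (anti_DicP f false c) hl h.1, All.sub (anti_DicP f true c) hr h.2⟩

theorem anti_mx (f : W → W → W → Prop) :
    Anti (fun b l r => ∀ a ∈ l.nodes, ∀ c ∈ r.nodes, ¬ f a b c) := by
  intro b l r l' r' hl hr h a ha c hc
  exact h a (hl.nodes a ha) c (hr.nodes c hc)

/-- `P a b` for all `a` below `b` on the side `e` -/
def CC (e : Bool) (P : W → W → Prop) (T : BT) : Prop :=
  All (fun b l r => ∀ a ∈ (ch e l r).nodes, P a b) T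

theorem CC.sub {e : Bool} {P : W → W → Prop} {T T' : BT} (h : CC e P T) (hs : Sub T' T) :
    CC e P T' := All.sub (anti_ch e P) hs h

/-- no split triple and no one-sided chain is an edge -/
def Clean (f : W → W → W → Prop) (T : BT) : Prop :=
  All (fun c l r => (∀ a ∈ l.nodes, ∀ c' ∈ r.nodes, ¬ f a c c') ∧
    CC false (fun a b => ¬ f a b c) l ∧ CC true (fun a b => ¬ f a b c) r) T

/-- the invariant: `K e` is a clique above the tree -/
structure Inv2 (f : W → W → W → Prop) (N : W → Prop) (T : BT) (K : Bool → Finset W) : Prop where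
  i0 : (∀ x ∈ T.nodes, N x) ∧ ∀ e, ∀ x ∈ K e, N x
  i1 : ∀ e, ∀ c ∈ K e, ∀ x ∈ T.nodes, SB e c x
  i1' : ∀ e, ∀ c ∈ K e, ∀ c' ∈ K e, c ≠ c' → SB e c c' ∨ SB e c' c
  i2 : ∀ e, ∀ x ∈ K e, ∀ y ∈ K e, ∀ z ∈ K e, SB e y x → SB e z y → f x y z
  i3 : ∀ e, ∀ x ∈ T.nodes, ∀ y ∈ K e, ∀ z ∈ K e, SB e z y → f x y z
  i4 : ∀ e, All (fun b l r => ∀ a ∈ (ch e l r).nodes, ∀ c ∈ K e, f a b c) T

theorem anti_i4 (f : W → W → W → Prop) (e : Bool) (K : Finset W) :
    Anti (fun b l r => ∀ a ∈ (ch e l r).nodes, ∀ c ∈ K, f a b c) := by
  intro b l r l' r' hl hr h a ha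
  exact h a ((ch_sub hl hr).nodes a ha)

/-- no large clique on a one-sided chain -/
def NoClique (f : W → W → W → Prop) (N : W → Prop) (s : ℕ) : Prop :=
  ∀ (e : Bool) (E : Finset W), E.card = s → (∀ x ∈ E, N x) →
    (∀ c ∈ E, ∀ c' ∈ E, c ≠ c' → SB e c c' ∨ SB e c' c) →
    (∀ x ∈ E, ∀ y ∈ E, ∀ z ∈ E, SB e y x → SB e z y → f x y z) → False

theorem no_inv (f : W → W → W → Prop) (N : W → Prop) (s : ℕ) (hs : 2 ≤ s) (hno : NoClique f N s) (p : W)
    (T : BT) (K : Bool → Finset W) (hI : Inv2 f N T K) (hU : Under p T) (h : ℕ)
    (hT : Full (h + 2) T) (e : Bool) (hK : s - 2 ≤ (K e).card) : False := by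
  classical
  cases T with
  | leaf => exact hT
  | node b l r =>
    have hc : Full (h + 1) (ch e l r) := full_ch hT
    obtain ⟨a, ha⟩ : ∃ a, a ∈ (ch e l r).nodes := by
      generalize hX : ch e l r = X at hc
      cases X with
      | leaf => exact absurd hc (by simp [Full])
      | node a l' r' => exact ⟨a, by simp [BT.nodes]⟩
    obtain ⟨K', hK', hK'c⟩ := Finset.exists_subset_card_eq hK
    have haT : a ∈ (BT.node b l r).nodes := ch_nodes ha
    have hbT : b ∈ (BT.node b l r).nodes := by simp [BT.nodes]
    have hab : SB e b a := (under_ch hU).mem a ha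
    have hKa : ∀ c ∈ K', SB e c a := fun c hc => hI.i1 e c (hK' hc) a haT
    have hKb : ∀ c ∈ K', SB e c b := fun c hc => hI.i1 e c (hK' hc) b hbT
    have hbK : b ∉ K' := fun h => by
      have := (hKb b h).length
      omega
    have haK : a ∉ insert b K' := by
      rw [Finset.mem_insert]
      rintro (h | h)
      · have := hab.length
        rw [h] at this
        omega
      · have := (hKa a h).length
        omega
    have hlen : ∀ x ∈ insert a (insert b K'), x.length ≤ a.length := by
      intro x hx
      rcases Finset.mem_insert.1 hx with h | h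
      · rw [h]
      · rcases Finset.mem_insert.1 h with h | h
        · rw [h]
          exact hab.length.le
        · exact (hKa x h).length.le
    have hlenb : ∀ x ∈ insert b K', x.length ≤ b.length := by
      intro x hx
      rcases Finset.mem_insert.1 hx with h | h
      · rw [h]
      · exact (hKb x h).length.le
    refine hno e (insert a (insert b K')) ?_ ?_ ?_ ?_
    · rw [Finset.card_insert_of_notMem haK, Finset.card_insert_of_notMem hbK, hK'c]
      omega
    · intro x hx
      rcases Finset.mem_insert.1 hx with h | h
      · rw [h]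
        exact hI.i0.1 a haT
      · rcases Finset.mem_insert.1 h with h | h
        · rw [h]
          exact hI.i0.1 b hbT
        · exact hI.i0.2 e x (hK' h)
    · intro c hc c' hc' hne
      rcases Finset.mem_insert.1 hc with h | h
      · rcases Finset.mem_insert.1 hc' with h' | h'
        · exact absurd (h.trans h'.symm) hne
        · right
          rw [h]
          rcases Finset.mem_insert.1 h' with h2 | h2
          · rw [h2]
            exact hab
          · exact hKa c' h2
      · rcases Finset.mem_insert.1 hc' with h' | h'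
        · left
          rw [h']
          rcases Finset.mem_insert.1 h with h2 | h2
          · rw [h2]
            exact hab
          · exact hKa c h2
        · rcases Finset.mem_insert.1 h with h2 | h2
          · rcases Finset.mem_insert.1 h' with h3 | h3
            · exact absurd (h2.trans h3.symm) hne
            · right
              rw [h2]
              exact hKb c' h3
          · rcases Finset.mem_insert.1 h' with h3 | h3
            · left
              rw [h3]
              exact hKb c h2
            · exact hI.i1' e c (hK' h2) c' (hK' h3) hne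
    · intro x hx y hy z hz hyx hzy
      have hya : y ∈ insert b K' := by
        rcases Finset.mem_insert.1 hy with h | h
        · exfalso
          have h1 := hyx.length
          have h2 := hlen x hx
          rw [h] at h1
          omega
        · exact h
      have hzK : z ∈ K' := by
        rcases Finset.mem_insert.1 hz with h | h
        · exfalso
          have h1 := hzy.length
          have h2 := hlen y hy
          rw [h] at h1
          omega
        · rcases Finset.mem_insert.1 h with h | h
          · exfalso
            have h1 := hzy.length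
            have h2 := hlenb y hya
            rw [h] at h1
            omega
          · exact h
      rcases Finset.mem_insert.1 hya with h1 | h1
      · rcases Finset.mem_insert.1 hx with h2 | h2
        · rw [h1, h2]
          exact (hI.i4 e).1 a ha z (hK' hzK)
        · exfalso
          have h3 := hyx.length
          have h4 := hlenb x h2
          rw [h1] at h3
          omega
      · rcases Finset.mem_insert.1 hx with h2 | h2
        · rw [h2]
          exact hI.i3 e a haT y (hK' h1) z (hK' hzK) hzy
        · rcases Finset.mem_insert.1 h2 with h3 | h3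
          · rw [h3]
            exact hI.i3 e b hbT y (hK' h1) z (hK' hzK) hzy
          · exact hI.i2 e x (hK' h3) y (hK' h1) z (hK' hzK) hyx hzy

/-- passing to the child on the side `e`, with the new clique element `c` -/
theorem inv_step (f : W → W → W → Prop) (N : W → Prop) (p c : W) (l r : BT) (K : Bool → Finset W)
    (hI : Inv2 f N (BT.node c l r) K) (hU : Under p (BT.node c l r)) (e : Bool) (X : BT)
    (hX : Sub X (ch e l r)) (hblue : CC e (fun a b => f a b c) X) :
    Inv2 f N X (Function.update K e (insert c (K e))) := by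
  classical
  have hXT : Sub X (BT.node c l r) := sub_ch hX
  have hcT : c ∈ (BT.node c l r).nodes := by simp [BT.nodes]
  have hcX : ∀ x ∈ X.nodes, SB e c x := fun x hx => (under_ch hU).mem x (hX.nodes x hx)
  have hKc : ∀ e', ∀ x ∈ K e', SB e' x c := fun e' x hx => hI.i1 e' x hx c hcT
  have hmem : ∀ e' x, x ∈ Function.update K e (insert c (K e)) e' → x ∈ K e' ∨ (e' = e ∧ x = c) := by
    intro e' x hx
    by_cases h : e' = e
    · subst h
      rw [Function.update_self] at hx
      rcases Finset.mem_insert.1 hx with h1 | h1
      · exact Or.inr ⟨rfl, h1⟩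
      · exact Or.inl h1
    · rw [Function.update_of_ne h] at hx
      exact Or.inl hx
  refine ⟨⟨fun x hx => hI.i0.1 x (hXT.nodes x hx), ?_⟩, ?_, ?_, ?_, ?_, ?_⟩
  · intro e' x hx
    rcases hmem e' x hx with h | ⟨-, h⟩
    · exact hI.i0.2 e' x h
    · rw [h]
      exact hI.i0.1 c hcT
  · intro e' c' hc' x hx
    rcases hmem e' c' hc' with h | ⟨h1, h2⟩
    · exact hI.i1 e' c' h x (hXT.nodes x hx)
    · rw [h1, h2]
      exact hcX x hx
  · intro e' c1 hc1 c2 hc2 hne
    rcases hmem e' c1 hc1 with h | ⟨h1, h2⟩
    · rcases hmem e' c2 hc2 with h' | ⟨h3, h4⟩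
      · exact hI.i1' e' c1 h c2 h' hne
      · left
        rw [h4]
        exact hKc e' c1 h
    · rcases hmem e' c2 hc2 with h' | ⟨h3, h4⟩
      · right
        rw [h2]
        exact hKc e' c2 h'
      · exact absurd (h2.trans h4.symm) hne
  · intro e' x hx y hy z hz hyx hzy
    have hlx : x.length ≤ c.length := by
      rcases hmem e' x hx with h | ⟨-, h⟩
      · exact (hKc e' x h).length.le
      · rw [h]
    have hyK : y ∈ K e' := by
      rcases hmem e' y hy with h | ⟨-, h⟩
      · exact h
      · exfalso
        have := hyx.length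
        rw [h] at this
        omega
    have hzK : z ∈ K e' := by
      rcases hmem e' z hz with h | ⟨-, h⟩
      · exact h
      · exfalso
        have h1 := hzy.length
        have h2 := (hKc e' y hyK).length
        rw [h] at h1
        omega
    rcases hmem e' x hx with h | ⟨h1, h2⟩
    · exact hI.i2 e' x h y hyK z hzK hyx hzy
    · rw [h2]
      exact hI.i3 e' c hcT y hyK z hzK hzy
  · intro e' x hx y hy z hz hzy
    have hzK : z ∈ K e' := by
      rcases hmem e' z hz with h | ⟨h0, h⟩
      · exact h
      · exfalso
        have h1 := hzy.length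
        rw [h] at h1
        rcases hmem e' y hy with h3 | ⟨-, h3⟩
        · have := (hKc e' y h3).length
          omega
        · rw [h3] at h1
          omega
    rcases hmem e' y hy with h | ⟨h1, h2⟩
    · exact hI.i3 e' x (hXT.nodes x hx) y h z hzK hzy
    · rw [h2]
      subst h1
      exact (hI.i4 e').1 x (hX.nodes x hx) z hzK
  · intro e'
    by_cases h : e' = e
    · subst h
      rw [Function.update_self]
      have h1 := All.sub (anti_i4 f e' (K e')) hXT (hI.i4 e')
      refine (h1.and hblue).mono ?_
      intro b l' r' hb a ha c' hc'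
      rcases Finset.mem_insert.1 hc' with h2 | h2
      · rw [h2]
        exact hb.2 a ha
      · exact hb.1 a ha c' h2
    · rw [Function.update_of_ne h]
      exact All.sub (anti_i4 f e' (K e')) hXT (hI.i4 e')

/-- the heights -/
def gg (i₀ : ℕ) : ℕ → ℕ
  | 0 => 2
  | n + 1 => i₀ * (gg i₀ n + 1) + 2

theorem two_le_gg (i₀ n : ℕ) : 2 ≤ gg i₀ n := by
  cases n with
  | zero => exact le_rfl
  | succ n => unfold gg; omega

theorem phase2 (f : W → W → W → Prop) (N : W → Prop) (s : ℕ) (hs : 2 ≤ s) (hno : NoClique f N s) (i₀ : ℕ) :
    ∀ (n : ℕ) (T : BT) (p : W) (K : Bool → Finset W) (m : Bool → ℕ), Inv2 f N T K → Under p T →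
      Good f T → Mx f T → (∀ e, s - 2 ≤ (K e).card + m e) → m false + m true = n →
      Full (gg i₀ n) T → ∃ T', Sub T' T ∧ Full i₀ T' ∧ Clean f T' := by
  classical
  intro n
  induction n with
  | zero =>
    intro T p K m hI hU _ _ hK hm hT
    exfalso
    have h0 := hK false
    have hm0 : m false = 0 := by omega
    rw [hm0, add_zero] at h0
    exact no_inv f N s hs hno p T K hI hU 0 hT false h0
  | succ n ih =>
    intro T p K m hI hU hG hMx hK hm hT
    obtain ⟨h2, hh2⟩ : ∃ h2, gg i₀ (n + 1) = h2 + 2 := ⟨gg i₀ (n + 1) - 2, by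
      have := two_le_gg i₀ (n + 1)
      omega⟩
    have hmpos : ∀ e, 1 ≤ m e := by
      intro e
      by_contra hlt
      have hm0 : m e = 0 := by omega
      have h0 := hK e
      rw [hm0, add_zero] at h0
      rw [hh2] at hT
      exact no_inv f N s hs hno p T K hI hU h2 hT e h0
    set k := gg i₀ n with hk
    -- one side of a node
    have hside : ∀ (i : ℕ) (c : W) (l r : BT) (e : Bool), Sub (BT.node c l r) T →
        Full (k + i * (k + 1) + 1) (BT.node c l r) →
        ∃ X, Sub X (ch e l r) ∧ ((Full i₀ X ∧ Clean f X) ∨
          (Full (i * (k + 1)) X ∧ CC e (fun a b => ¬ f a b c) X)) := by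
      intro i c l r e hsub hF
      have hGn := All.sub (anti_good f) hsub hG
      have hdic : All (DicP f e c) (ch e l r) := by
        cases e
        · exact hGn.1.1
        · exact hGn.1.2
      obtain ⟨X, hX, hX'⟩ := vc (fun b l r => ∀ a ∈ (ch e l r).nodes, f a b c)
        (fun b l r => ∀ a ∈ (ch e l r).nodes, ¬ f a b c) (anti_ch e (fun a b => f a b c))
        (anti_ch e (fun a b => ¬ f a b c)) (ch e l r) k (i * (k + 1)) (full_ch hF) hdic
      rcases hX' with hX' | hX'
      · have hIn : Inv2 f N (BT.node c l r) K := by
          refine ⟨⟨fun x hx => hI.i0.1 x (hsub.nodes x hx), hI.i0.2⟩,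
            fun e c hc x hx => hI.i1 e c hc x (hsub.nodes x hx), hI.i1', hI.i2,
            fun e x hx => hI.i3 e x (hsub.nodes x hx), fun e => All.sub (anti_i4 f e (K e)) hsub (hI.i4 e)⟩
        have hUn := hsub.under p hU
        have hIX := inv_step f N p c l r K hIn hUn e X hX hX'.2
        have hXT : Sub X T := (sub_ch hX).trans hsub
        have hcK : c ∉ K e := fun h => by
          have := (hIn.i1 e c h c (by simp [BT.nodes])).length
          omega
        obtain ⟨T', h1, h2, h3⟩ := ih X p (Function.update K e (insert c (K e)))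
          (Function.update m e (m e - 1)) hIX (hXT.under p hU) (All.sub (anti_good f) hXT hG)
          (All.sub (anti_mx f) hXT hMx) (by
            intro e'
            by_cases h : e' = e
            · subst h
              rw [Function.update_self, Function.update_self, Finset.card_insert_of_notMem hcK]
              have := hK e'
              have := hmpos e'
              omega
            · rw [Function.update_of_ne h, Function.update_of_ne h]
              exact hK e') (by
            cases e
            · rw [Function.update_self, Function.update_of_ne (by decide)]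
              have := hmpos false
              omega
            · rw [Function.update_self, Function.update_of_ne (by decide)]
              have := hmpos true
              omega) hX'.1
        exact ⟨T', h1.trans hX, Or.inl ⟨h2, h3⟩⟩
      · exact ⟨X, hX, Or.inr hX'⟩
    -- the inner recursion
    have hinner : ∀ (i : ℕ) (T₁ : BT), Sub T₁ T → Full (i * (k + 1)) T₁ →
        ∃ T', Sub T' T₁ ∧ ((Full i T' ∧ Clean f T') ∨ (Full i₀ T' ∧ Clean f T')) := by
      intro i
      induction i with
      | zero =>
        intro T₁ _ _
        exact ⟨BT.leaf, Sub.leaf _, Or.inl ⟨trivial, trivial⟩⟩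
      | succ i ihi =>
        intro T₁ hsub hF
        have e1 : (i + 1) * (k + 1) = k + i * (k + 1) + 1 := by ring
        rw [e1] at hF
        cases T₁ with
        | leaf => exact absurd hF (by simp [Full])
        | node c l r =>
          obtain ⟨Xl, hXl, hXl'⟩ := hside i c l r false hsub hF
          obtain ⟨Xr, hXr, hXr'⟩ := hside i c l r true hsub hF
          rcases hXl' with h | h
          · exact ⟨Xl, Sub.left _ _ _ _ hXl, Or.inr h⟩
          rcases hXr' with h' | h'
          · exact ⟨Xr, Sub.right _ _ _ _ hXr, Or.inr h'⟩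
          have hXlT : Sub Xl T := (Sub.left c l r Xl hXl).trans hsub
          have hXrT : Sub Xr T := (Sub.right c l r Xr hXr).trans hsub
          obtain ⟨Yl, hYl, hYl'⟩ := ihi Xl hXlT h.1
          obtain ⟨Yr, hYr, hYr'⟩ := ihi Xr hXrT h'.1
          rcases hYl' with h2 | h2
          · rcases hYr' with h3 | h3
            · refine ⟨BT.node c Yl Yr, Sub.node _ _ _ _ _ (hYl.trans hXl) (hYr.trans hXr),
                Or.inl ⟨⟨h2.1, h3.1⟩, ⟨?_, h.2.sub hYl, h'.2.sub hYr⟩, h2.2, h3.2⟩⟩
              have hMn := All.sub (anti_mx f) hsub hMx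
              intro a ha c' hc'
              exact hMn.1 a ((hYl.trans hXl).nodes a ha) c' ((hYr.trans hXr).nodes c' hc')
            · exact ⟨Yr, (hYr.trans hXr).trans (Sub.right _ _ _ _ (Sub.refl r)), Or.inr h3⟩
          · exact ⟨Yl, (hYl.trans hXl).trans (Sub.left _ _ _ _ (Sub.refl l)), Or.inr h2⟩
    have hle : i₀ * (k + 1) ≤ gg i₀ (n + 1) := by
      have : gg i₀ (n + 1) = i₀ * (k + 1) + 2 := rfl
      omega
    obtain ⟨T₀, hT0, hT0F⟩ := hT.trim hle
    obtain ⟨T', h1, h3⟩ := hinner i₀ T₀ hT0 hT0F
    refine ⟨T', h1.trans hT0, ?_⟩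
    rcases h3 with h3 | h3
    · exact h3
    · exact h3

end Pool.TreeBar
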