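import Pool.Agent.Lib.MP_add94d_co.Barrier.Tree

/-!
# The splitting lemma
-/

set_option autoImplicit false

open Finset

namespace Pool.TreeBar

open BT

/-- `a` lies in the left subtree of `b` -/
def LB (b a : W) : Prop := (b ++ [false]) <+: a

theorem LB.length {b a : W} (h : LB b a) : b.length < a.length := by
  have := h.length_le
  simp only [List.length_append, List.length_cons, List.length_nil] at this
  omega

/-- there is a tall tree inside `R` all of whose nodes `c` satisfy `f a b c` for all `a ∈ Q` -/
def Has (f : W → W → W → Prop) (b : W) (R : BT) (Q : Finset W) (k : ℕ) : Prop :=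
  ∃ U, Sub U R ∧ Full k U ∧ ∀ c ∈ U.nodes, ∀ a ∈ Q, f a b c

/-- the conclusion of the splitting lemma -/
def SplitC (f : W → W → W → Prop) (T : BT) (P : ℕ) (u : ℕ → ℕ) (t : ℕ) : Prop :=
  ∃ b A U i, i < t ∧ b ∈ T.nodes ∧ (∀ x ∈ A.nodes, x ∈ T.nodes) ∧ (∀ x ∈ U.nodes, x ∈ T.nodes) ∧
    Under (b ++ [false]) A ∧ Under (b ++ [true]) U ∧ Full P A ∧ Full (u i) U ∧
    ∀ a ∈ A.nodes, ¬ ∃ U', Sub U' U ∧ Full (u (i + 1)) U' ∧ ∀ c ∈ U'.nodes, f a b c

theorem filterT {E : Type} (C : Finset E) (G : E → W → Prop) (P : ℕ) :
    ∀ (Y : BT) (y : ℕ), Full (C.card * P + y) Y →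
      (∃ e ∈ C, ∃ A, Sub A Y ∧ Full P A ∧ ∀ a ∈ A.nodes, ¬ G e a) ∨
      (∃ Y', Sub Y' Y ∧ Full y Y' ∧ ∀ e ∈ C, ∀ a ∈ Y'.nodes, G e a) := by
  classical
  induction C using Finset.induction_on with
  | empty =>
    intro Y y hY
    simp only [Finset.card_empty, zero_mul, zero_add] at hY
    exact Or.inr ⟨Y, Sub.refl Y, hY, fun e he => absurd he (Finset.notMem_empty e)⟩
  | insert e C he ih =>
    intro Y y hY
    rw [Finset.card_insert_of_notMem he] at hY
    have e1 : (C.card + 1) * P + y = C.card * P + (P + y) := by ring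
    rw [e1] at hY
    rcases ih Y (P + y) hY with ⟨e', he', A, h1, h2, h3⟩ | ⟨Y₁, h1, h2, h3⟩
    · exact Or.inl ⟨e', Finset.mem_insert_of_mem he', A, h1, h2, h3⟩
    · obtain ⟨Y₂, h4, h5⟩ := vcNode (fun a => ¬ G e a) Y₁ P y h2
      rcases h5 with h5 | h5
      · exact Or.inl ⟨e, Finset.mem_insert_self e C, Y₂, h4.trans h1, h5.1, h5.2⟩
      · refine Or.inr ⟨Y₂, h4.trans h1, h5.1, fun e' he' a ha => ?_⟩
        rcases Finset.mem_insert.1 he' with h | h
        · rw [h]
          exact not_not.1 (h5.2 a ha)
        · exact h3 e' h a (h4.nodes a ha)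

open Classical in
/-- the constraints given by a set `D` of nodes -/
noncomputable def constr (D : Finset W) (t : ℕ) : Finset (W × Finset W) :=
  (D ×ˢ D.powerset.filter (fun Q => Q.card < t)).filter (fun e => ∀ a ∈ e.2, LB e.1 a)

theorem sum_choose_le (d t : ℕ) : ∑ i ∈ range t, d.choose i ≤ (d + 2) ^ t := by
  induction t with
  | zero => simp
  | succ t ih =>
    rw [Finset.sum_range_succ, pow_succ]
    have h1 : d.choose t ≤ d ^ t := Nat.choose_le_pow d t
    have h2 : d ^ t ≤ (d + 2) ^ t := Nat.pow_le_pow_left (by omega) t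
    have h3 : 0 < (d + 2) ^ t := by positivity
    nlinarith

theorem card_constr (D : Finset W) (t L : ℕ) (hD : D.card ≤ L) :
    (constr D t).card ≤ L * (L + 2) ^ t := by
  classical
  unfold constr
  refine (Finset.card_filter_le _ _).trans ?_
  rw [Finset.card_product]
  refine Nat.mul_le_mul hD ?_
  have h1 : D.powerset.filter (fun Q => Q.card < t) ⊆ (range t).biUnion fun i => powersetCard i D := by
    intro Q hQ
    rw [Finset.mem_filter, Finset.mem_powerset] at hQ
    rw [Finset.mem_biUnion]
    exact ⟨Q.card, Finset.mem_range.2 hQ.2, Finset.mem_powersetCard.2 ⟨hQ.1, rfl⟩⟩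
  refine (Finset.card_le_card h1).trans (Finset.card_biUnion_le.trans ?_)
  simp only [Finset.card_powersetCard]
  refine (sum_choose_le D.card t).trans ?_
  exact Nat.pow_le_pow_left (by omega) t

/-- the state of the greedy process -/
structure State (f : W → W → W → Prop) (T : BT) (p : W) (u : ℕ → ℕ) (t : ℕ) (D : Finset W)
    (R : W → BT) : Prop where
  s1 : ∀ b ∈ D, b ∈ T.nodes
  s2 : ∀ b ∈ D, (∀ x ∈ (R b).nodes, x ∈ T.nodes) ∧ Under (b ++ [true]) (R b)
  s3 : ∀ b ∈ D, ∀ a ∈ D, a ≠ b → LB b a ∨ LB a b
  s4 : ∀ b ∈ D, ∀ Q ⊆ D, (∀ a ∈ Q, LB b a) → Q.card ≤ t → Has f b (R b) Q (u Q.card)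

theorem greedy (f : W → W → W → Prop) (T : BT) (p : W) (u : ℕ → ℕ) (t L P B : ℕ)
    (hB : ∀ D : Finset W, D.card ≤ L → (constr D t).card ≤ B) :
    ∀ (k : ℕ) (D : Finset W) (R : W → BT) (Y : BT), D.card + k ≤ L → State f T p u t D R →
      (∀ x ∈ Y.nodes, x ∈ T.nodes) → (∀ b ∈ D, Under (b ++ [false]) Y) → Under p Y →
      Full (k * (B * P + 1) + u 0) Y →
      SplitC f T P u t ∨ ∃ D' R', D'.card = D.card + k ∧ State f T p u t D' R' := by
  classical
  intro k
  induction k with
  | zero =>
    intro D R Y _ hS _ _ _ _
    exact Or.inr ⟨D, R, rfl, hS⟩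
  | succ k ih =>
    intro D R Y hDk hS hY1 hY2 hY3 hY
    set C := constr D t with hC
    have hCB : C.card ≤ B := hB D (by omega)
    have hle : C.card * P + (k * (B * P + 1) + u 0 + 1) ≤ (k + 1) * (B * P + 1) + u 0 := by
      have := Nat.mul_le_mul_right P hCB
      nlinarith
    obtain ⟨Y₀, hY0, hY0F⟩ := hY.trim hle
    rcases filterT C (fun e a => Has f e.1 (R e.1) (insert a e.2) (u (e.2.card + 1))) P Y₀ _ hY0F with
      ⟨e, he, A, h1, h2, h3⟩ | ⟨Y₁, h1, h2, h3⟩
    · left
      rw [hC, constr, Finset.mem_filter, Finset.mem_product, Finset.mem_filter,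
        Finset.mem_powerset] at he
      obtain ⟨⟨heD, heQ, heT⟩, heL⟩ := he
      obtain ⟨U, hU1, hU2, hU3⟩ := hS.s4 e.1 heD e.2 heQ heL heT.le
      have hAY : Sub A Y := h1.trans hY0
      refine ⟨e.1, A, U, e.2.card, heT, hS.s1 _ heD, fun x hx => hY1 x (hAY.nodes x hx),
        fun x hx => (hS.s2 _ heD).1 x (hU1.nodes x hx), hAY.under _ (hY2 _ heD),
        hU1.under _ (hS.s2 _ heD).2, h2, hU2, fun a ha => ?_⟩
      rintro ⟨U', hU'1, hU'2, hU'3⟩
      apply h3 a ha
      refine ⟨U', hU'1.trans hU1, hU'2, fun c hc a' ha' => ?_⟩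
      rcases Finset.mem_insert.1 ha' with h | h
      · rw [h]
        exact hU'3 c hc
      · exact hU3 c (hU'1.nodes c hc) a' h
    · cases Y₁ with
      | leaf => exact absurd h2 (by simp [Full])
      | node b l r =>
        have hsub : Sub (BT.node b l r) Y := h1.trans hY0
        have hbY : b ∈ (BT.node b l r).nodes := by simp [BT.nodes]
        have hbY' : b ∈ Y.nodes := hsub.nodes b hbY
        have hlb : ∀ d ∈ D, LB d b := fun d hd => (hY2 d hd).mem b hbY'
        have hbD : b ∉ D := fun h => by
          have := (hlb b h).length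
          omega
        have hUnd : Under p (BT.node b l r) := hsub.under p hY3
        have hres := ih (insert b D) (Function.update R b r) l (by
            rw [Finset.card_insert_of_notMem hbD]
            omega) ?_ ?_ ?_ ?_ h2.1
        · rcases hres with h | ⟨D', R', h4, h5⟩
          · exact Or.inl h
          · refine Or.inr ⟨D', R', ?_, h5⟩
            rw [h4, Finset.card_insert_of_notMem hbD]
            omega
        · refine ⟨?_, ?_, ?_, ?_⟩
          · intro d hd
            rcases Finset.mem_insert.1 hd with h | h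
            · rw [h]
              exact hY1 b hbY'
            · exact hS.s1 d h
          · intro d hd
            rcases Finset.mem_insert.1 hd with h | h
            · subst h
              rw [Function.update_self]
              refine ⟨fun x hx => hY1 x (hsub.nodes x ?_), hUnd.2.2⟩
              simp only [BT.nodes, List.mem_cons, List.mem_append]
              exact Or.inr (Or.inr hx)
            · have hne : d ≠ b := fun e => hbD (e ▸ h)
              rw [Function.update_of_ne hne]
              exact hS.s2 d h
          · intro d hd a ha hne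
            rcases Finset.mem_insert.1 hd with h | h
            · rcases Finset.mem_insert.1 ha with h' | h'
              · exact absurd (h'.trans h.symm) hne
              · rw [h]
                exact Or.inr (hlb a h')
            · rcases Finset.mem_insert.1 ha with h' | h'
              · rw [h']
                exact Or.inl (hlb d h)
              · exact hS.s3 d h a h' hne
          · intro d hd Q hQ hQL hQt
            rcases Finset.mem_insert.1 hd with h | h
            · subst h
              have hQ0 : Q = ∅ := by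
                rw [Finset.eq_empty_iff_forall_notMem]
                intro a ha
                have h4 := (hQL a ha).length
                rcases Finset.mem_insert.1 (hQ ha) with h5 | h5
                · rw [h5] at h4
                  omega
                · have := (hlb a h5).length
                  omega
              subst hQ0
              rw [Function.update_self]
              obtain ⟨U, hU, hUF⟩ := Full.trim h2.2 (show u 0 ≤ k * (B * P + 1) + u 0 by omega)
              exact ⟨U, hU, by simpa using hUF, fun c _ a ha => absurd ha (Finset.notMem_empty a)⟩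
            · have hne : d ≠ b := fun e => hbD (e ▸ h)
              rw [Function.update_of_ne hne]
              by_cases hbQ : b ∈ Q
              · have hQe : Q.erase b ⊆ D := by
                  intro x hx
                  rw [Finset.mem_erase] at hx
                  exact (Finset.mem_insert.1 (hQ hx.2)).resolve_left hx.1
                have hcard := Finset.card_erase_add_one hbQ
                have hmem : (d, Q.erase b) ∈ C := by
                  rw [hC, constr, Finset.mem_filter, Finset.mem_product, Finset.mem_filter,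
                    Finset.mem_powerset]
                  exact ⟨⟨h, hQe, by simp only; omega⟩,
                    fun a ha => hQL a (Finset.mem_of_mem_erase ha)⟩
                have h6 := h3 (d, Q.erase b) hmem b hbY
                simp only [Finset.insert_erase hbQ, hcard] at h6
                exact h6
              · have hQD : Q ⊆ D := by
                  intro x hx
                  exact (Finset.mem_insert.1 (hQ hx)).resolve_left (fun e => hbQ (e ▸ hx))
                exact hS.s4 d h Q hQD hQL hQt
        · intro x hx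
          refine hY1 x (hsub.nodes x ?_)
          simp only [BT.nodes, List.mem_cons, List.mem_append]
          exact Or.inr (Or.inl hx)
        · intro d hd
          rcases Finset.mem_insert.1 hd with h | h
          · rw [h]
            exact hUnd.2.1
          · have h4 := hsub.under _ (hY2 d h)
            exact h4.2.1.mono (h4.1.trans (List.prefix_append b [false]))
        · exact hUnd.2.1.mono (hUnd.1.trans (List.prefix_append b [false]))

/-- the splitting lemma -/
theorem split (f : W → W → W → Prop) (T : BT) (p : W) (u : ℕ → ℕ) (t L P : ℕ) (hut : 1 ≤ u t)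
    (hT : Under p T) (hF : Full (L * (L * (L + 2) ^ t * P + 1) + u 0) T)
    (hdom : ∀ D : Finset W, D.card = L → (∀ b ∈ D, b ∈ T.nodes) →
      (∀ b ∈ D, ∀ a ∈ D, a ≠ b → LB b a ∨ LB a b) →
      ∃ b ∈ D, ∃ Q ⊆ D, Q.card = t ∧ (∀ a ∈ Q, LB b a) ∧
        ∀ c ∈ T.nodes, (b ++ [true]) <+: c → ∃ a ∈ Q, ¬ f a b c) :
    SplitC f T P u t := by
  have h := greedy f T p u t L P (L * (L + 2) ^ t) (fun D hD => card_constr D t L hD) L ∅
    (fun _ => BT.leaf) T (by simp) ⟨by simp, by simp, by simp, by simp⟩ (fun x hx => hx)
    (by simp) hT hF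
  rcases h with h | ⟨D, R, h1, h2⟩
  · exact h
  · exfalso
    rw [Finset.card_empty, zero_add] at h1
    obtain ⟨b, hb, Q, hQ, hQt, hQL, hc⟩ := hdom D h1 h2.s1 h2.s3
    obtain ⟨U, hU1, hU2, hU3⟩ := h2.s4 b hb Q hQ hQL hQt.le
    rw [hQt] at hU2
    cases U with
    | leaf =>
      obtain ⟨m, hm⟩ : ∃ m, u t = m + 1 := ⟨u t - 1, by omega⟩
      rw [hm] at hU2
      exact hU2
    | node c l r =>
      have hcU : c ∈ (BT.node c l r).nodes := by simp [BT.nodes]
      have hcR := hU1.nodes c hcU
      obtain ⟨a, ha, hna⟩ := hc c ((h2.s2 b hb).1 c hcR) ((h2.s2 b hb).2.mem c hcR)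
      exact hna (hU3 c hcU a ha)

end Pool.TreeBar
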