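import Pool.Agent.Lib.MP_add94d_co.Barrier.Defs

/-!
# Embedded binary trees
-/

set_option autoImplicit false

namespace Pool.TreeBar

/-- binary trees whose inner nodes are labelled by words -/
inductive BT : Type
  | leaf : BT
  | node : W → BT → BT → BT

namespace BT

/-- the labels of the inner nodes -/
def nodes : BT → List W
  | leaf => []
  | node b l r => b :: (nodes l ++ nodes r)

/-- complete trees of height `h` -/
def Full : ℕ → BT → Prop
  | 0, leaf => True
  | 0, node _ _ _ => False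
  | _ + 1, leaf => False
  | h + 1, node _ l r => Full h l ∧ Full h r

/-- all nodes have the property `φ` -/
def All (φ : W → BT → BT → Prop) : BT → Prop
  | leaf => True
  | node b l r => φ b l r ∧ All φ l ∧ All φ r

/-- the tree is embedded in the tree of all words, below `p` -/
def Under : W → BT → Prop
  | _, leaf => True
  | p, node b l r => p <+: b ∧ Under (b ++ [false]) l ∧ Under (b ++ [true]) r

/-- `Sub T' T`: the tree `T'` is obtained from `T` by deleting nodes -/
inductive Sub : BT → BT → Prop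
  | leaf (T : BT) : Sub leaf T
  | node (b : W) (l l' r r' : BT) : Sub l' l → Sub r' r → Sub (node b l' r') (node b l r)
  | left (b : W) (l r T : BT) : Sub T l → Sub T (node b l r)
  | right (b : W) (l r T : BT) : Sub T r → Sub T (node b l r)

theorem Sub.refl (T : BT) : Sub T T := by
  induction T with
  | leaf => exact Sub.leaf _
  | node b l r hl hr => exact Sub.node b l l r r hl hr

theorem Sub.trans {T₁ T₂ T₃ : BT} (h : Sub T₁ T₂) (h' : Sub T₂ T₃) : Sub T₁ T₃ := by
  induction h' generalizing T₁ with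
  | leaf T =>
    cases h
    exact Sub.leaf _
  | node b l l' r r' _ _ ihl ihr =>
    cases h with
    | leaf => exact Sub.leaf _
    | node b l2 l1 r2 r1 h1 h2 => exact Sub.node _ _ _ _ _ (ihl h1) (ihr h2)
    | left b l2 r2 T h1 => exact Sub.left _ _ _ _ (ihl h1)
    | right b l2 r2 T h1 => exact Sub.right _ _ _ _ (ihr h1)
  | left b l r T _ ih => exact Sub.left _ _ _ _ (ih h)
  | right b l r T _ ih => exact Sub.right _ _ _ _ (ih h)

theorem Sub.nodes {T' T : BT} (h : Sub T' T) : ∀ x ∈ T'.nodes, x ∈ T.nodes := by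
  induction h with
  | leaf T => intro x hx; simp [BT.nodes] at hx
  | node b l l' r r' _ _ ihl ihr =>
    intro x hx
    simp only [BT.nodes, List.mem_cons, List.mem_append] at hx ⊢
    rcases hx with h | h | h
    · exact Or.inl h
    · exact Or.inr (Or.inl (ihl x h))
    · exact Or.inr (Or.inr (ihr x h))
  | left b l r T _ ih =>
    intro x hx
    simp only [BT.nodes, List.mem_cons, List.mem_append]
    exact Or.inr (Or.inl (ih x hx))
  | right b l r T _ ih =>
    intro x hx
    simp only [BT.nodes, List.mem_cons, List.mem_append]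
    exact Or.inr (Or.inr (ih x hx))

theorem Under.mono {p q : W} {T : BT} (h : Under q T) (hpq : p <+: q) : Under p T := by
  cases T with
  | leaf => trivial
  | node b l r => exact ⟨hpq.trans h.1, h.2⟩

theorem Sub.under {T' T : BT} (h : Sub T' T) : ∀ p, Under p T → Under p T' := by
  induction h with
  | leaf T => intro p _; trivial
  | node b l l' r r' _ _ ihl ihr =>
    intro p hp
    exact ⟨hp.1, ihl _ hp.2.1, ihr _ hp.2.2⟩
  | left b l r T _ ih =>
    intro p hp
    exact (ih _ hp.2.1).mono (hp.1.trans (List.prefix_append b [false]))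
  | right b l r T _ ih =>
    intro p hp
    exact (ih _ hp.2.2).mono (hp.1.trans (List.prefix_append b [true]))

theorem Under.mem {T : BT} : ∀ {p : W}, Under p T → ∀ x ∈ T.nodes, p <+: x := by
  induction T with
  | leaf => intro p _ x hx; simp [BT.nodes] at hx
  | node b l r ihl ihr =>
    intro p hp x hx
    simp only [BT.nodes, List.mem_cons, List.mem_append] at hx
    rcases hx with h | h | h
    · rw [h]
      exact hp.1
    · exact (hp.1.trans (List.prefix_append b [false])).trans (ihl hp.2.1 x h)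
    · exact (hp.1.trans (List.prefix_append b [true])).trans (ihr hp.2.2 x h)

/-- properties that pass to subtrees -/
def Anti (φ : W → BT → BT → Prop) : Prop :=
  ∀ b l r l' r', Sub l' l → Sub r' r → φ b l r → φ b l' r'

theorem All.sub {φ : W → BT → BT → Prop} (hφ : Anti φ) {T' T : BT} (h : Sub T' T) :
    All φ T → All φ T' := by
  induction h with
  | leaf T => intro _; trivial
  | node b l l' r r' h1 h2 ihl ihr =>
    intro h
    exact ⟨hφ _ _ _ _ _ h1 h2 h.1, ihl h.2.1, ihr h.2.2⟩
  | left b l r T _ ih => exact fun h => ih h.2.1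
  | right b l r T _ ih => exact fun h => ih h.2.2

theorem All.mono {φ ψ : W → BT → BT → Prop} (h : ∀ b l r, φ b l r → ψ b l r) {T : BT} :
    All φ T → All ψ T := by
  induction T with
  | leaf => exact fun _ => trivial
  | node b l r ihl ihr => exact fun hT => ⟨h _ _ _ hT.1, ihl hT.2.1, ihr hT.2.2⟩

theorem All.and {φ ψ : W → BT → BT → Prop} {T : BT} (h : All φ T) (h' : All ψ T) :
    All (fun b l r => φ b l r ∧ ψ b l r) T := by
  induction T with
  | leaf => trivial
  | node b l r ihl ihr => exact ⟨⟨h.1, h'.1⟩, ihl h.2.1 h'.2.1, ihr h.2.2 h'.2.2⟩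

theorem Full.trim {T : BT} : ∀ {h h' : ℕ}, Full h T → h' ≤ h → ∃ T', Sub T' T ∧ Full h' T' := by
  induction T with
  | leaf =>
    intro h h' hT hle
    cases h with
    | zero =>
      have : h' = 0 := by omega
      subst this
      exact ⟨leaf, Sub.leaf _, trivial⟩
    | succ h => exact absurd hT (by simp [Full])
  | node b l r ihl ihr =>
    intro h h' hT hle
    cases h with
    | zero => exact absurd hT (by simp [Full])
    | succ h =>
      cases h' with
      | zero => exact ⟨leaf, Sub.leaf _, trivial⟩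
      | succ h' =>
        obtain ⟨l', hl, hl'⟩ := ihl hT.1 (show h' ≤ h by omega)
        obtain ⟨r', hr, hr'⟩ := ihr hT.2 (show h' ≤ h by omega)
        exact ⟨node b l' r', Sub.node _ _ _ _ _ hl hr, hl', hr'⟩

theorem Full.length {T : BT} : ∀ {h : ℕ}, Full h T → T.nodes.length + 1 = 2 ^ h := by
  induction T with
  | leaf =>
    intro h hT
    cases h with
    | zero => simp [BT.nodes]
    | succ h => exact absurd hT (by simp [Full])
  | node b l r ihl ihr =>
    intro h hT
    cases h with
    | zero => exact absurd hT (by simp [Full])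
    | succ h =>
      have h1 := ihl hT.1
      have h2 := ihr hT.2
      simp only [BT.nodes, List.length_cons, List.length_append]
      rw [pow_succ]
      omega

/-- the vertex colouring lemma for trees -/
theorem vc (φ ψ : W → BT → BT → Prop) (hφ : Anti φ) (hψ : Anti ψ) (T : BT) :
    ∀ h₁ h₂ : ℕ, Full (h₁ + h₂) T → All (fun b l r => φ b l r ∨ ψ b l r) T →
      ∃ T', Sub T' T ∧ ((Full h₁ T' ∧ All φ T') ∨ (Full h₂ T' ∧ All ψ T')) := by
  induction T with
  | leaf =>
    intro h₁ h₂ hT _
    refine ⟨leaf, Sub.leaf _, ?_⟩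
    rcases Nat.eq_zero_or_pos (h₁ + h₂) with h0 | h0
    · have : h₁ = 0 := by omega
      subst this
      exact Or.inl ⟨trivial, trivial⟩
    · obtain ⟨k, hk⟩ : ∃ k, h₁ + h₂ = k + 1 := ⟨h₁ + h₂ - 1, by omega⟩
      rw [hk] at hT
      exact absurd hT (by simp [Full])
  | node b l r ihl ihr =>
    intro h₁ h₂ hT hA
    rcases h₁ with _ | h₁
    · exact ⟨leaf, Sub.leaf _, Or.inl ⟨trivial, trivial⟩⟩
    rcases h₂ with _ | h₂
    · exact ⟨leaf, Sub.leaf _, Or.inr ⟨trivial, trivial⟩⟩
    have e1 : h₁ + 1 + (h₂ + 1) = (h₁ + (h₂ + 1)) + 1 := by omega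
    have e2 : h₁ + 1 + (h₂ + 1) = ((h₁ + 1) + h₂) + 1 := by omega
    rcases hA.1 with hb | hb
    · rw [e1] at hT
      obtain ⟨l', hl, hl'⟩ := ihl h₁ (h₂ + 1) hT.1 hA.2.1
      obtain ⟨r', hr, hr'⟩ := ihr h₁ (h₂ + 1) hT.2 hA.2.2
      rcases hl' with hl' | hl'
      · rcases hr' with hr' | hr'
        · exact ⟨node b l' r', Sub.node _ _ _ _ _ hl hr,
            Or.inl ⟨⟨hl'.1, hr'.1⟩, hφ _ _ _ _ _ hl hr hb, hl'.2, hr'.2⟩⟩
        · exact ⟨r', Sub.right _ _ _ _ hr, Or.inr hr'⟩
      · exact ⟨l', Sub.left _ _ _ _ hl, Or.inr hl'⟩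
    · rw [e2] at hT
      obtain ⟨l', hl, hl'⟩ := ihl (h₁ + 1) h₂ hT.1 hA.2.1
      obtain ⟨r', hr, hr'⟩ := ihr (h₁ + 1) h₂ hT.2 hA.2.2
      rcases hl' with hl' | hl'
      · exact ⟨l', Sub.left _ _ _ _ hl, Or.inl hl'⟩
      · rcases hr' with hr' | hr'
        · exact ⟨r', Sub.right _ _ _ _ hr, Or.inl hr'⟩
        · exact ⟨node b l' r', Sub.node _ _ _ _ _ hl hr,
            Or.inr ⟨⟨hl'.1, hr'.1⟩, hψ _ _ _ _ _ hl hr hb, hl'.2, hr'.2⟩⟩

theorem all_nodes {P : W → Prop} {T : BT} : All (fun b _ _ => P b) T ↔ ∀ x ∈ T.nodes, P x := by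
  induction T with
  | leaf => simp [All, BT.nodes]
  | node b l r ihl ihr =>
    simp only [All, BT.nodes, List.mem_cons, List.mem_append, ihl, ihr]
    constructor
    · rintro ⟨h1, h2, h3⟩ x (h | h | h)
      · rw [h]; exact h1
      · exact h2 x h
      · exact h3 x h
    · intro h
      exact ⟨h b (Or.inl rfl), fun x hx => h x (Or.inr (Or.inl hx)),
        fun x hx => h x (Or.inr (Or.inr hx))⟩

/-- colourings of the nodes -/
theorem vcNode (P : W → Prop) (T : BT) (h₁ h₂ : ℕ) (hT : Full (h₁ + h₂) T) :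
    ∃ T', Sub T' T ∧ ((Full h₁ T' ∧ ∀ x ∈ T'.nodes, P x) ∨ (Full h₂ T' ∧ ∀ x ∈ T'.nodes, ¬ P x)) := by
  obtain ⟨T', h1, h2⟩ := vc (fun b _ _ => P b) (fun b _ _ => ¬ P b) (fun _ _ _ _ _ _ _ h => h)
    (fun _ _ _ _ _ _ _ h => h) T h₁ h₂ hT (all_nodes.2 fun x _ => em (P x))
  refine ⟨T', h1, ?_⟩
  rcases h2 with h2 | h2
  · exact Or.inl ⟨h2.1, all_nodes.1 h2.2⟩
  · exact Or.inr ⟨h2.1, all_nodes.1 h2.2⟩

/-- halving with respect to finitely many node colourings: each colouring becomes constant -/
theorem halve (C : Finset W) (P : W → W → Prop) : ∀ (T : BT) (h : ℕ), Full (2 ^ C.card * h) T →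
    ∃ T', Sub T' T ∧ Full h T' ∧ ∀ c ∈ C, (∀ x ∈ T'.nodes, P c x) ∨ (∀ x ∈ T'.nodes, ¬ P c x) := by
  classical
  induction C using Finset.induction_on with
  | empty =>
    intro T h hT
    simp only [Finset.card_empty, pow_zero, one_mul] at hT
    exact ⟨T, Sub.refl T, hT, fun c hc => absurd hc (Finset.notMem_empty c)⟩
  | insert a C ha ih =>
    intro T h hT
    rw [Finset.card_insert_of_notMem ha, pow_succ] at hT
    have e : 2 ^ C.card * 2 * h = 2 ^ C.card * (2 * h) := by ring
    rw [e] at hT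
    obtain ⟨T₁, h1, h2, h3⟩ := ih T (2 * h) hT
    have e2 : 2 * h = h + h := by ring
    rw [e2] at h2
    obtain ⟨T₂, h4, h5⟩ := vcNode (P a) T₁ h h h2
    have hT2 : Full h T₂ := by
      rcases h5 with h5 | h5
      · exact h5.1
      · exact h5.1
    refine ⟨T₂, h4.trans h1, hT2, fun c hc => ?_⟩
    rcases Finset.mem_insert.1 hc with hc | hc
    · subst hc
      rcases h5 with h5 | h5
      · exact Or.inl h5.2
      · exact Or.inr h5.2
    · rcases h3 c hc with h6 | h6
      · exact Or.inl fun x hx => h6 x (h4.nodes x hx)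
      · exact Or.inr fun x hx => h6 x (h4.nodes x hx)

end BT

end Pool.TreeBar
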